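import Mathlib

/-!
# Theorem CM, part G: the real determinant of a complex linear map of `ℂ × ℂ`
-/

set_option autoImplicit false

noncomputable section

namespace Pool.Agent.CMT.G

/-- The complex linear map of `ℂ × ℂ` with a given matrix. -/
def mat (M : Matrix (Fin 2) (Fin 2) ℂ) : (ℂ × ℂ) →L[ℂ] (ℂ × ℂ) :=
  ((M 0 0 • ContinuousLinearMap.fst ℂ ℂ ℂ + M 0 1 • ContinuousLinearMap.snd ℂ ℂ ℂ).prod
    (M 1 0 • ContinuousLinearMap.fst ℂ ℂ ℂ + M 1 1 • ContinuousLinearMap.snd ℂ ℂ ℂ))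

@[simp] theorem mat_apply (M : Matrix (Fin 2) (Fin 2) ℂ) (w : ℂ × ℂ) :
    mat M w = (M 0 0 * w.1 + M 0 1 * w.2, M 1 0 * w.1 + M 1 1 * w.2) := by
  simp [mat]

/-- `|det_ℝ| = |det_ℂ|²`. -/
theorem det_real (D : (ℂ × ℂ) →L[ℂ] (ℂ × ℂ)) : (D.restrictScalars ℝ).det = ‖D.det‖ ^ 2 := by
  have h1 : (D.restrictScalars ℝ).det = LinearMap.det ((D : (ℂ × ℂ) →ₗ[ℂ] (ℂ × ℂ)).restrictScalars ℝ) := rfl
  rw [h1, LinearMap.det_restrictScalars, Algebra.norm_complex_eq]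
  simp [Complex.normSq_eq_norm_sq, ContinuousLinearMap.det]

theorem mat_det (M : Matrix (Fin 2) (Fin 2) ℂ) : (mat M).det = M.det := by
  have h1 : (mat M).det = LinearMap.det ((mat M : (ℂ × ℂ) →ₗ[ℂ] (ℂ × ℂ))) := rfl
  have h2 : LinearMap.toMatrix (Module.Basis.finTwoProd ℂ) (Module.Basis.finTwoProd ℂ) (mat M : (ℂ × ℂ) →ₗ[ℂ] (ℂ × ℂ)) = M := by
    ext i j
    rw [LinearMap.toMatrix_apply]
    fin_cases i <;> fin_cases j <;> simp
  rw [h1, ← LinearMap.det_toMatrix (Module.Basis.finTwoProd ℂ), h2]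

/-- The real Jacobian of a map with complex derivative `M` is `|det M|²`. -/
theorem mat_real (M : Matrix (Fin 2) (Fin 2) ℂ) : |((mat M).restrictScalars ℝ).det| = ‖M.det‖ ^ 2 := by
  rw [det_real, mat_det, abs_of_nonneg (sq_nonneg _)]

/-- The pull back of a covector `p` (coefficients of `dz1`, `dz2`) by the matrix `M`. -/
def pb (p : ℂ × ℂ) (M : Matrix (Fin 2) (Fin 2) ℂ) : ℂ × ℂ :=
  (p.1 * M 0 0 + p.2 * M 1 0, p.1 * M 0 1 + p.2 * M 1 1)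

theorem wedge_pb (p q : ℂ × ℂ) (M : Matrix (Fin 2) (Fin 2) ℂ) :
    (pb p M).1 * (pb q M).2 - (pb p M).2 * (pb q M).1 = (p.1 * q.2 - p.2 * q.1) * M.det := by
  simp only [pb, Matrix.det_fin_two]
  ring

end Pool.Agent.CMT.G
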