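import Pool.Agent.Lib.CMT.G.Nint

/-!
# Theorem CM, part G: the density argument

`S` is the set of the products `ω₁ ∧ ω₂`, `f` the form `ω₃ ∧ ω₄`, `κ r` the kernel with parameter `r`; for `r` in a set `D` it is a
finite sum of elements of `S`, and at `r0` it is a multiple of `f`. If continuous functions which vanish on `D` vanish at `r0`, then
some element of `S` has a non zero pairing with `f`.
-/

set_option autoImplicit false

open MeasureTheory

noncomputable section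

namespace Pool.Agent.CMT.G

variable {E : Type*} [NormedAddCommGroup E] [NormedSpace ℝ E] {Γ : Type*} [Group Γ]

variable {X : Set E} {A : Γ → E → E} {J : Γ → E → ℝ} {χ χ' : E → ℝ}

/-- Forms `k` with `j g z * k (A g z) = k z` for `g` in `H`. -/
def Cov (X : Set E) (A : Γ → E → E) (j : Γ → E → ℂ) (H : Subgroup Γ) (k : E → ℂ) : Prop :=
  ∀ g ∈ H, ∀ z ∈ X, j g z * k (A g z) = k z

/-- Forms continuous on `X` and invariant under a subgroup of finite index. -/
def MF (X : Set E) (A : Γ → E → E) (j : Γ → E → ℂ) (k : E → ℂ) : Prop :=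
  ContinuousOn k X ∧ ∃ H : Subgroup Γ, H.FiniteIndex ∧ Cov X A j H k

/-- The product of a form and the conjugate of a form is a density. -/
theorem Cov.inv {j : Γ → E → ℂ} (hJ : ∀ g z, J g z = ‖j g z‖ ^ 2) {H : Subgroup Γ} {k l : E → ℂ}
    (hk : Cov X A j H k) (hl : Cov X A j H l) :
    Inv X (resA H A) (resJ H J) (fun z => k z * (starRingEnd ℂ) (l z)) := by
  intro g z hz
  have h1 := hk g g.2 z hz
  have h2 := hl g g.2 z hz
  show ((J (g : Γ) z : ℝ) : ℂ) * (k (A g z) * (starRingEnd ℂ) (l (A g z))) = _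
  rw [hJ]
  have h3 : ((‖j g z‖ ^ 2 : ℝ) : ℂ) = j g z * (starRingEnd ℂ) (j g z) := by
    rw [Complex.mul_conj, Complex.normSq_eq_norm_sq]
  show _ = k z * (starRingEnd ℂ) (l z)
  rw [h3, ← h1, ← h2, map_mul]
  ring

theorem MF.den {j : Γ → E → ℂ} (hJ : ∀ g z, J g z = ‖j g z‖ ^ 2) {k l : E → ℂ} (hk : MF X A j k) (hl : MF X A j l) :
    Den X A J (fun z => k z * (starRingEnd ℂ) (l z)) := by
  obtain ⟨hc, H, hH, hi⟩ := hk
  obtain ⟨hc', H', hH', hi'⟩ := hl
  refine ⟨hc.mul (Complex.continuous_conj.comp_continuousOn hc'), H ⊓ H', inferInstance, Cov.inv hJ ?_ ?_⟩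
  · exact fun g hg => hi g hg.1
  · exact fun g hg => hi' g hg.2

variable [FiniteDimensional ℝ E] [MeasurableSpace E] [BorelSpace E] {μ : Measure E} [μ.IsAddHaarMeasure]

/-- The integral of a jointly continuous family is continuous. -/
theorem int_continuous (hA : Ac X A J) (h : Wt X A χ) {P : Type*} [TopologicalSpace P] [FirstCountableTopology P]
    {κ : P → E → ℂ} (hκ : ContinuousOn (fun p : P × E => κ p.1 p.2) (Set.univ ×ˢ X)) {f : E → ℂ} (hf : ContinuousOn f X) :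
    Continuous fun r => ∫ z, (χ z : ℂ) * (κ r z * f z) ∂μ := by
  rw [continuous_iff_continuousAt]
  intro r0
  have h1 : ∀ r, ContinuousOn (κ r) X := fun r =>
    hκ.comp (Continuous.prodMk continuous_const continuous_id).continuousOn fun z hz => ⟨Set.mem_univ _, hz⟩
  have h2 : ∀ z ∈ X, Filter.Tendsto (fun r => κ r z) (nhds r0) (nhds (κ r0 z)) := by
    intro z hz
    have h3 : ContinuousAt (fun p : P × E => κ p.1 p.2) (r0, z) :=
      hκ.continuousAt ((isOpen_univ.prod hA.op).mem_nhds ⟨Set.mem_univ _, hz⟩)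
    exact h3.tendsto.comp ((Continuous.prodMk continuous_id continuous_const).continuousAt (x := r0))
  refine int_tendsto hA h hf h1 h2 ?_
  -- local boundedness
  obtain ⟨C, hC⟩ := (h.cpt.isCompact).exists_bound_of_continuousOn ((h1 r0).mono h.sub)
  refine ⟨C + 1, ?_⟩
  have h4 : ∀ z ∈ tsupport χ, ∀ᶠ p : P × E in nhds (r0, z), ‖κ p.1 p.2‖ ≤ C + 1 := by
    intro z hz
    have h3 : ContinuousAt (fun p : P × E => ‖κ p.1 p.2‖) (r0, z) :=
      (hκ.continuousAt ((isOpen_univ.prod hA.op).mem_nhds ⟨Set.mem_univ _, h.sub hz⟩)).norm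
    have h5 : ‖κ r0 z‖ < C + 1 := lt_of_le_of_lt (hC z hz) (lt_add_one C)
    filter_upwards [h3.eventually_lt_const h5] with p hp using hp.le
  have h6 := h.cpt.isCompact.eventually_forall_of_forall_eventually (x₀ := r0) (P := fun r z => ‖κ r z‖ ≤ C + 1)
    (fun z hz => h4 z hz)
  exact h6

/-- **The density argument.** -/
theorem main [Countable Γ] (hA : Ac X A J) (h0 : ∃ χ, Wt X A χ) {j : Γ → E → ℂ} (hJ : ∀ g z, J g z = ‖j g z‖ ^ 2)
    {P : Type*} [TopologicalSpace P] [FirstCountableTopology P]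
    (S : Set (E → ℂ)) (hS : ∀ k ∈ S, MF X A j k)
    (f : E → ℂ) (hf : MF X A j f) (hne : ∃ z ∈ X, f z ≠ 0)
    (κ : P → E → ℂ) (hκ : ContinuousOn (fun p : P × E => κ p.1 p.2) (Set.univ ×ˢ X))
    (hκi : ∃ H : Subgroup Γ, H.FiniteIndex ∧ ∀ r, Cov X A j H (κ r))
    (r0 : P) (c : ℂ) (hc : c ≠ 0) (hr0 : ∀ z ∈ X, κ r0 z = c * f z)
    (D : Set P) (hD : ∀ r ∈ D, ∃ (n : ℕ) (s : Fin n → E → ℂ), (∀ i, s i ∈ S) ∧ ∀ z ∈ X, κ r z = ∑ i, s i z)
    (R : P → P → Prop) (hR : ∀ r r', R r r' → κ r = κ r')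
    (hdens : ∀ Λ : P → ℂ, Continuous Λ → (∀ r r', R r r' → Λ r = Λ r') → (∀ r ∈ D, Λ r = 0) → Λ r0 = 0) :
    ∃ k ∈ S, nint μ X A J (fun z => k z * (starRingEnd ℂ) (f z)) ≠ 0 := by
  classical
  by_contra hcon
  push Not at hcon
  obtain ⟨H, hH, hi⟩ := hκi
  obtain ⟨hfc, H', hH', hi'⟩ := hf
  obtain ⟨χ0, hχ0⟩ := h0
  obtain ⟨χ, hχ⟩ := Wt.down hA hχ0 (H ⊓ H')
  have hA1 := hA.res (H ⊓ H')
  have hfbar : ContinuousOn (fun z => (starRingEnd ℂ) (f z)) X := Complex.continuous_conj.comp_continuousOn hfc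
  have hκc : ∀ r, ContinuousOn (κ r) X := fun r =>
    hκ.comp (Continuous.prodMk continuous_const continuous_id).continuousOn fun z hz => ⟨Set.mem_univ _, hz⟩
  have hinv : ∀ r, Inv X (resA (H ⊓ H') A) (resJ (H ⊓ H') J) (fun z => κ r z * (starRingEnd ℂ) (f z)) := fun r =>
    Cov.inv hJ (fun g hg => hi r g hg.1) (fun g hg => hi' g hg.2)
  have hidx : ((H ⊓ H').index : ℂ) ≠ 0 := by
    exact_mod_cast Subgroup.FiniteIndex.index_ne_zero
  -- the function of the parameter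
  have h1 := hdens (fun r => ∫ z, (χ z : ℂ) * (κ r z * (starRingEnd ℂ) (f z)) ∂μ)
    (int_continuous hA1 hχ hκ hfbar) (fun r r' h => by simp only [hR r r' h]) ?_
  · -- at `r0`
    have h2 : Inv X (resA (H ⊓ H') A) (resJ (H ⊓ H') J) (fun z => f z * (starRingEnd ℂ) (f z)) :=
      Cov.inv hJ (fun g hg => hi' g hg.2) (fun g hg => hi' g hg.2)
    have h3 : ∫ z, (χ z : ℂ) * (f z * (starRingEnd ℂ) (f z)) ∂μ ≠ 0 := by
      refine int_pos hA1 hχ (hfc.mul hfbar) h2 ?_ ?_
      · intro z hz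
        refine ⟨‖f z‖ ^ 2, sq_nonneg _, ?_⟩
        rw [Complex.mul_conj, Complex.normSq_eq_norm_sq]
      · obtain ⟨z, hz, hfz⟩ := hne
        refine ⟨z, hz, mul_ne_zero hfz ?_⟩
        rwa [Ne, map_eq_zero]
    have h4 : ∫ z, (χ z : ℂ) * (κ r0 z * (starRingEnd ℂ) (f z)) ∂μ =
        c * ∫ z, (χ z : ℂ) * (f z * (starRingEnd ℂ) (f z)) ∂μ := by
      rw [← integral_const_mul]
      refine integral_congr_ae (Filter.Eventually.of_forall fun z => ?_)
      by_cases hz : z ∈ X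
      · simp only
        rw [hr0 z hz]
        ring
      · simp only
        rw [hχ.eq_zero hz]
        simp
    rw [h4] at h1
    exact (mul_ne_zero hc h3) h1
  · -- on `D`
    intro r hr
    obtain ⟨n, s, hs, hsum⟩ := hD r hr
    have h2 : nint μ X A J (fun z => κ r z * (starRingEnd ℂ) (f z)) =
        (∫ z, (χ z : ℂ) * (κ r z * (starRingEnd ℂ) (f z)) ∂μ) / ((H ⊓ H').index : ℂ) :=
      nint_eq hA ⟨χ0, hχ0⟩ ((hκc r).mul hfbar) (hinv r) hχ
    have hden : ∀ i, Den X A J (fun z => s i z * (starRingEnd ℂ) (f z)) := fun i =>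
      MF.den hJ (hS _ (hs i)) ⟨hfc, H', hH', hi'⟩
    have h3 : nint μ X A J (fun z => κ r z * (starRingEnd ℂ) (f z)) = 0 := by
      have h4 : nint μ X A J (fun z => κ r z * (starRingEnd ℂ) (f z)) =
          nint μ X A J (fun z => ∑ i, s i z * (starRingEnd ℂ) (f z)) := by
        refine nint_congr hA ⟨χ0, hχ0⟩ (Den.sum Finset.univ fun i _ => hden i) fun z hz => ?_
        rw [hsum z hz, Finset.sum_mul]
      rw [h4, nint_sum hA ⟨χ0, hχ0⟩ Finset.univ fun i _ => hden i]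
      exact Finset.sum_eq_zero fun i _ => hcon _ (hs i)
    rw [h3] at h2
    have h5 := h2.symm
    rw [div_eq_zero_iff] at h5
    exact h5.resolve_right hidx

end Pool.Agent.CMT.G
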