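import Pool.Agent.Lib.CMT.B.Br
import Pool.Agent.Lib.CMT.G.Det
import Pool.Agent.Lib.CMT.G.Main

/-!
# Theorem CM, part G: the abstract statements for the ball and subgroups of the isometries
-/

set_option autoImplicit false

open MeasureTheory

noncomputable section

namespace Pool.Agent.CMT.G

open _root_.CMT _root_.CMT.B

variable {F : Type} [Field F] [NumberField F]

/-- The action of a group of isometries on the ball. -/
def AB (D : Dat F) (G : Subgroup (SG D)) : G → ℂ × ℂ → ℂ × ℂ := fun g z => _root_.CMT.act D g.1 z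

/-- The complex Jacobian. -/
def jB (D : Dat F) (G : Subgroup (SG D)) : G → ℂ × ℂ → ℂ := fun g z => (num D g.1 z 2 ^ 3)⁻¹

/-- The real Jacobian. -/
def JB (D : Dat F) (G : Subgroup (SG D)) : G → ℂ × ℂ → ℝ := fun g z => ‖jB D G g z‖ ^ 2

theorem JB_eq (D : Dat F) (G : Subgroup (SG D)) : ∀ g z, JB D G g z = ‖jB D G g z‖ ^ 2 := fun _ _ => rfl

theorem isOpen_Ball (D : Dat F) : IsOpen (Ball D) := by
  have h : Continuous fun z : ℂ × ℂ => ‖z.1‖ ^ 2 + ‖z.2‖ ^ 2 := by fun_prop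
  exact h.isOpen_preimage _ isOpen_Iio

theorem dact_eq (D : Dat F) (g : SG D) (z : ℂ × ℂ) :
    dact (mt D D.t0 g) z = mat ((num D g z 2)⁻¹ • MM (mt D D.t0 g) z) := by
  have e : ∀ i k, ((num D g z 2)⁻¹ • MM (mt D D.t0 g) z) i k = MM (mt D D.t0 g) z i k / jj (mt D D.t0 g) z := by
    intro i k
    rw [Matrix.smul_apply, smul_eq_mul, num_two_eq, div_eq_inv_mul]
  simp only [dact, mat, e]

theorem det_act (D : Dat F) {g : SG D} (hg : IsIso D g) {z : ℂ × ℂ} (hz : z ∈ Ball D) :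
    ((num D g z 2)⁻¹ • MM (mt D D.t0 g) z).det = (num D g z 2 ^ 3)⁻¹ := by
  have hj := num_two_ne_zero D hg hz
  have h1 := det_MM (g := mt D D.t0 g) (z := z) hj
  rw [mt_det] at h1
  rw [Matrix.det_smul, Fintype.card_fin]
  have h2 : jj (mt D D.t0 g) z = num D g z 2 := rfl
  rw [h2] at h1
  field_simp
  linear_combination h1

/-- Isometries act on the ball. -/
theorem ac_ball (D : Dat F) (G : Subgroup (SG D)) (hG : ∀ g ∈ G, IsIso D g) : Ac (Ball D) (AB D G) (JB D G) where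
  op := isOpen_Ball D
  mem g z hz := act_mem_Ball D (hG g g.2) hz
  one z _ := act_one_Ball D z
  mul g h z hz := act_mul_Ball D g.1 (hG h h.2) hz
  der g z hz := by
    refine ⟨(dact (mt D D.t0 g.1) z).restrictScalars ℝ, (hasFDerivAt_act_Ball D (hG g g.2) hz).restrictScalars ℝ, ?_⟩
    rw [dact_eq, mat_real, det_act D (hG g g.2) hz]
    rfl

theorem wt_of_isWeight (D : Dat F) (G : Subgroup (SG D)) {χ : ℂ × ℂ → ℝ} (h : IsWeight D G χ) :
    Wt (Ball D) (AB D G) χ :=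
  ⟨h.1, h.2.1, h.2.2.1, h.2.2.2.1, h.2.2.2.2⟩

theorem isWeight_of_wt (D : Dat F) (G : Subgroup (SG D)) {χ : ℂ × ℂ → ℝ} (h : Wt (Ball D) (AB D G) χ) :
    IsWeight D G χ :=
  ⟨h.cont, h.nn, h.cpt, h.sub, h.sum⟩

/-- The wedge product and pull backs. -/
theorem wedge_pull (D : Dat F) {g : SG D} (hg : IsIso D g) {z : ℂ × ℂ} (hz : z ∈ Ball D) (p q : ℂ × ℂ) :
    wedge (pull1 D g z p) (pull1 D g z q) = pull2 D g z (wedge p q) := by
  have hj := num_two_ne_zero D hg hz
  have hj' : jj (mt D D.t0 g) z ≠ 0 := hj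
  have h1 := det_MM (g := mt D D.t0 g) (z := z) hj
  rw [mt_det, Matrix.det_fin_two] at h1
  rw [pull1_eq D g z hj', pull1_eq D g z hj']
  simp only [wedge, pull2]
  have h2 : num D g z 2 = jj (mt D D.t0 g) z := rfl
  rw [h2]
  field_simp
  linear_combination (p.1 * q.2 - p.2 * q.1) * h1

/-- A 2-form invariant under `g` in terms of `Cov`. -/
theorem pull2_eq (D : Dat F) (g : SG D) (z : ℂ × ℂ) (c : ℂ) : pull2 D g z c = (num D g z 2 ^ 3)⁻¹ * c := by
  rw [pull2, div_eq_inv_mul]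

end Pool.Agent.CMT.G
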