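import Pool.Agent.Lib.CMT.Defs

/-!
# Theorem CM, part G: congruence subgroups have finite index
-/

set_option autoImplicit false

noncomputable section

namespace Pool.Agent.CMT.G

open _root_.CMT NumberField

variable {F : Type} [Field F] [NumberField F]

/-- The integer of an integral element. -/
def io (x : F) : 𝓞 F := by
  classical
  exact if h : IsIntegral ℤ x then ⟨x, h⟩ else 0

theorem io_coe {x : F} (h : IsIntegral ℤ x) : ((io x : 𝓞 F) : F) = x := by
  unfold io
  rw [dif_pos h]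
  rfl

/-- The ideal of the multiples of `m`. -/
def im (F : Type) [Field F] [NumberField F] (m : ℕ) : Ideal (𝓞 F) := Ideal.span {((m : ℕ) : 𝓞 F)}

theorem finite_quot (m : ℕ) (hm : 0 < m) : Finite (𝓞 F ⧸ im F m) := by
  refine Ideal.finiteQuotientOfFreeOfNeBot _ ?_
  intro h
  rw [im, Ideal.span_singleton_eq_bot] at h
  have h1 : ((m : ℕ) : 𝓞 F) ≠ 0 := by exact_mod_cast hm.ne'
  exact h1 h

theorem mk_io {m : ℕ} {x y : F} (hx : IsIntegral ℤ x) (hy : IsIntegral ℤ y)
    (h : Ideal.Quotient.mk (im F m) (io x) = Ideal.Quotient.mk (im F m) (io y)) :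
    ∃ c : F, IsIntegral ℤ c ∧ x - y = (m : F) * c := by
  rw [Ideal.Quotient.eq, im, Ideal.mem_span_singleton'] at h
  obtain ⟨a, ha⟩ := h
  refine ⟨(a : F), a.2, ?_⟩
  have h1 := congrArg (algebraMap (𝓞 F) F) ha
  rw [map_mul, map_sub, map_natCast] at h1
  have e1 : algebraMap (𝓞 F) F (io x) = x := io_coe hx
  have e2 : algebraMap (𝓞 F) F (io y) = y := io_coe hy
  rw [e1, e2] at h1
  rw [← h1, mul_comm]

/-- The reduction of a matrix. -/
def red (D : Dat F) (m : ℕ) (g : SG D) : Fin 3 → Fin 3 → (𝓞 F ⧸ im F m) × (𝓞 F ⧸ im F m) :=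
  fun i j => (Ideal.Quotient.mk _ (io (g.1 i j).re), Ideal.Quotient.mk _ (io (g.1 i j).im))

theorem Gam_one_int (D : Dat F) {g : SG D} (hg : g ∈ Gam D 1) (i j : Fin 3) : RInt D (g.1 i j) :=
  isCong_entry D hg.2 i j

theorem Gam_le (D : Dat F) (m : ℕ) : Gam D m ≤ Gam D 1 := by
  intro g hg
  obtain ⟨h1, X, hX, hgX⟩ := hg
  refine ⟨h1, (m : KD D) • X, ?_, ?_⟩
  · intro i j
    rw [Matrix.smul_apply, smul_eq_mul]
    exact (RR D).mul_mem (natCast_mem (RR D) m) (hX i j)
  · rw [hgX]
    simp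

theorem red_inj (D : Dat F) (m : ℕ) {g h : SG D} (hg : g ∈ Gam D 1) (hh : h ∈ Gam D 1)
    (he : red D m g = red D m h) : g⁻¹ * h ∈ Gam D m := by
  have hinv := (Gam D 1).inv_mem hg
  -- `h = g + m Y`
  have h1 : ∀ i j, ∃ c : KD D, RInt D c ∧ h.1 i j - g.1 i j = (m : KD D) * c := by
    intro i j
    have e1 := congrFun (congrFun he.symm i) j
    have e2 := congrArg Prod.fst e1
    have e3 := congrArg Prod.snd e1
    obtain ⟨c, hc, hc'⟩ := mk_io (Gam_one_int D hh i j).1 (Gam_one_int D hg i j).1 e2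
    obtain ⟨d, hd, hd'⟩ := mk_io (Gam_one_int D hh i j).2 (Gam_one_int D hg i j).2 e3
    refine ⟨⟨c, d⟩, ⟨hc, hd⟩, ?_⟩
    apply QuadraticAlgebra.ext
    · rw [QuadraticAlgebra.re_sub, QuadraticAlgebra.re_mul, hc']
      simp
    · rw [QuadraticAlgebra.im_sub, QuadraticAlgebra.im_mul, hd']
      simp
  choose Y hY hY' using h1
  refine ⟨isIso_mul D (isIso_inv D hg.1) hh.1, (g⁻¹).1 * Matrix.of Y, ?_, ?_⟩
  · intro i j
    rw [Matrix.mul_apply]
    exact (RR D).sum_mem fun l _ => (RR D).mul_mem (Gam_one_int D hinv i l) (hY l j)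
  · have h2 : h.1 = g.1 + (m : KD D) • Matrix.of Y := by
      refine Matrix.ext fun i j => ?_
      rw [Matrix.add_apply, Matrix.smul_apply, smul_eq_mul, Matrix.of_apply, ← hY' i j]
      ring
    have h3 : (g⁻¹ * h).1 = (g⁻¹).1 * h.1 := rfl
    have h4 : (g⁻¹).1 * g.1 = 1 := congrArg Subtype.val (inv_mul_cancel g)
    rw [h3, h2, Matrix.mul_add, h4, Matrix.mul_smul]

/-- Congruence subgroups have finite index. -/
theorem finIdx (D : Dat F) (m : ℕ) (hm : 0 < m) : ((Gam D m).subgroupOf (Gam D 1)).FiniteIndex := by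
  have h0 := finite_quot (F := F) m hm
  have h1 : Function.Injective
      (fun q : (Gam D 1) ⧸ ((Gam D m).subgroupOf (Gam D 1)) => red D m (q.out : Gam D 1).1) := by
    intro q q' he
    have h2 := red_inj D m (q.out).2 (q'.out).2 he
    have h3 : (QuotientGroup.mk q.out : (Gam D 1) ⧸ ((Gam D m).subgroupOf (Gam D 1))) = QuotientGroup.mk q'.out := by
      rw [QuotientGroup.eq, Subgroup.mem_subgroupOf]
      exact h2
    rwa [QuotientGroup.out_eq', QuotientGroup.out_eq'] at h3
  have h2 : Finite ((Gam D 1) ⧸ ((Gam D m).subgroupOf (Gam D 1))) := Finite.of_injective _ h1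
  exact Subgroup.finiteIndex_of_finite_quotient

/-- The group is countable. -/
instance countable_SG (D : Dat F) : Countable (SG D) := by
  have h1 : Countable F := by
    exact (Module.finBasis ℚ F).equivFun.toEquiv.countable_iff.2 inferInstance
  have h2 : Countable (KD D) := by
    refine Function.Injective.countable (f := fun v : KD D => (v.re, v.im)) ?_
    intro v w h
    exact QuadraticAlgebra.ext (congrArg Prod.fst h) (congrArg Prod.snd h)
  have h3 : Countable (Matrix (Fin 3) (Fin 3) (KD D)) := inferInstanceAs (Countable (Fin 3 → Fin 3 → KD D))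
  exact Function.Injective.countable (f := fun g : SG D => g.1) Subtype.val_injective

end Pool.Agent.CMT.G
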