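import Pool.Agent.Lib.CMT.Iface
import Pool.Agent.Lib.CMT.G.Ball
import Pool.Agent.Lib.CMT.G.Fin

/-!
# Theorem CM, part G: the interfaces `S_Idx`, `S_Unf`, `S_PosInt`
-/

set_option autoImplicit false

open MeasureTheory ComplexConjugate

noncomputable section

namespace Pool.Agent.CMT.G

open _root_.CMT

variable {F : Type} [Field F] [NumberField F]

/-- The volume of `ℂ × ℂ` is a Haar measure. -/
instance haarVol : (volume : Measure (ℂ × ℂ)).IsAddHaarMeasure := by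
  rw [Measure.volume_eq_prod]
  infer_instance

/-- `S_Idx`. -/
theorem idx : S_Idx := by
  intro F _ _ D n hn
  exact (finIdx D n hn).index_ne_zero

theorem isIso_of_le (D : Dat F) {G : Subgroup (SG D)} (h : G ≤ Gam D 1) : ∀ g ∈ G, IsIso D g :=
  fun _ hg => (h hg).1

/-- Densities in the two notations. -/
theorem inv_of_isDens (D : Dat F) {G : Subgroup (SG D)} (hG : G ≤ Gam D 1) {f : ℂ × ℂ → ℂ} (h : IsDens D G f) :
    Inv (Ball D) (AB D G) (JB D G) f := by
  intro g z hz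
  have h1 := h g.1 g.2 z hz
  have hj := _root_.CMT.B.num_two_ne_zero D (isIso_of_le D hG g g.2) hz
  have hn : (‖num D g.1 z 2‖ : ℝ) ≠ 0 := norm_ne_zero_iff.2 hj
  show ((JB D G g z : ℝ) : ℂ) * f (_root_.CMT.act D g.1 z) = f z
  rw [h1, ← mul_assoc, ← Complex.ofReal_mul]
  have h2 : JB D G g z * ‖num D g.1 z 2‖ ^ 6 = 1 := by
    show ‖(num D g.1 z 2 ^ 3)⁻¹‖ ^ 2 * ‖num D g.1 z 2‖ ^ 6 = 1
    rw [norm_inv, norm_pow]
    field_simp
  rw [h2, Complex.ofReal_one, one_mul]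

theorem isDens_mono (D : Dat F) {G H : Subgroup (SG D)} (h : H ≤ G) {f : ℂ × ℂ → ℂ} (hf : IsDens D G f) :
    IsDens D H f := fun g hg z hz => hf g (h hg) z hz

/-- The weight of the larger group. -/
theorem isWeight_up (D : Dat F) {G G' : Subgroup (SG D)} (hle : G' ≤ G) (hG : G ≤ Gam D 1)
    (hi : G'.relIndex G ≠ 0) {χ : ℂ × ℂ → ℝ} (h : IsWeight D G' χ) :
    IsWeight D G (fun z => χ z / (G'.relIndex G : ℕ)) := by
  have hfi : (G'.subgroupOf G).FiniteIndex := ⟨hi⟩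
  refine isWeight_of_wt D G (Wt.up (ac_ball D G (isIso_of_le D hG)) (G'.subgroupOf G) ?_)
  have h1 := wt_of_isWeight D G' h
  refine ⟨h1.cont, h1.nn, h1.cpt, h1.sub, ?_⟩
  intro z hz
  have h2 := h1.sum z hz
  exact ((Subgroup.subgroupOfEquivOfLe hle).toEquiv.hasSum_iff (f := fun g : G' => χ (AB D G' g z))).2 h2

/-- `S_Unf`. -/
theorem unf : S_Unf := by
  intro F _ _ _ D G G' hle hG hi χ χ' hχ hχ' f hf hd
  have h1 := wt_of_isWeight D G (isWeight_up D hle hG hi hχ')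
  have h2 := int_eq (μ := volume) (ac_ball D G (isIso_of_le D hG)) h1 (wt_of_isWeight D G hχ) hf (inv_of_isDens D hG hd)
  rw [← h2]
  have hne : ((G'.relIndex G : ℕ) : ℂ) ≠ 0 := by exact_mod_cast hi
  rw [← integral_const_mul]
  refine integral_congr_ae (Filter.Eventually.of_forall fun z => ?_)
  simp only
  push_cast
  field_simp

/-- `S_PosInt`. -/
theorem posInt : S_PosInt := by
  intro F _ _ _ D G hG χ hχ c hc hd h0
  have hcc : ContinuousOn (fun z => c z * conj (c z)) (Ball D) :=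
    hc.mul (Complex.continuous_conj.comp_continuousOn hc)
  refine int_pos (μ := volume) (ac_ball D G (isIso_of_le D hG)) (wt_of_isWeight D G hχ) hcc
    (inv_of_isDens D hG hd) ?_ ?_
  · intro z hz
    refine ⟨‖c z‖ ^ 2, sq_nonneg _, ?_⟩
    rw [Complex.mul_conj, Complex.normSq_eq_norm_sq]
  · refine ⟨0, ?_, mul_ne_zero h0 ?_⟩
    · show ‖(0 : ℂ × ℂ).1‖ ^ 2 + ‖(0 : ℂ × ℂ).2‖ ^ 2 < D.t0 D.bet
      simpa using D.bet_pos
    · rwa [Ne, map_eq_zero]

/-- A weight of a group gives a weight of every subgroup of finite index. -/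
theorem isWeight_down (D : Dat F) {G G' : Subgroup (SG D)} (hle : G' ≤ G) (hG : G ≤ Gam D 1)
    (hi : G'.relIndex G ≠ 0) {χ : ℂ × ℂ → ℝ} (h : IsWeight D G χ) : ∃ χ', IsWeight D G' χ' := by
  have hfi : (G'.subgroupOf G).FiniteIndex := ⟨hi⟩
  obtain ⟨χ', h'⟩ := Wt.down (ac_ball D G (isIso_of_le D hG)) (wt_of_isWeight D G h) (G'.subgroupOf G)
  refine ⟨χ', isWeight_of_wt D G' ⟨h'.cont, h'.nn, h'.cpt, h'.sub, ?_⟩⟩
  intro z hz
  have h2 := h'.sum z hz
  exact ((Subgroup.subgroupOfEquivOfLe hle).toEquiv.hasSum_iff (f := fun g : G' => χ' (AB D G' g z))).1 h2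

/-- Weights of the full group give all weights. -/
theorem isWeight_all (D : Dat F) {G : Subgroup (SG D)} (hG : G ≤ Gam D 1) (hi : G.relIndex (Gam D 1) ≠ 0)
    (h : ∃ χ, IsWeight D (Gam D 1) χ) : ∃ χ, IsWeight D G χ := by
  obtain ⟨χ, hχ⟩ := h
  exact isWeight_down D hG le_rfl hi hχ

end Pool.Agent.CMT.G
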