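import Pool.Agent.Lib.CMT.Iface
import Pool.Agent.Lib.CMT.G.Unf
import Pool.Agent.Lib.CMT.E.SBn

/-!
# Theorem CM, part G: lemmas for the assembly of `T1`
-/

set_option autoImplicit false

open MeasureTheory ComplexConjugate

noncomputable section

namespace Pool.Agent.CMT.G

open _root_.CMT

variable {F : Type} [Field F] [NumberField F]

theorem zero_mem_Ball (D : Dat F) : (0 : ℂ × ℂ) ∈ Ball D := by
  show ‖(0 : ℂ × ℂ).1‖ ^ 2 + ‖(0 : ℂ × ℂ).2‖ ^ 2 < D.t0 D.bet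
  simpa using D.bet_pos

theorem isSB2_prod {φ φ' : (Fin 3 → F) → ℂ} (h : IsSB φ) (h' : IsSB φ') : IsSB2 (fun p => φ p.1 * φ' p.2) := by
  obtain ⟨n, hn, h⟩ := h
  obtain ⟨m, hm, h'⟩ := h'
  refine ⟨n * m, Nat.mul_pos hn hm, SB.prod (h.mono m) ?_⟩
  rw [Nat.mul_comm]
  exact h'.mono n

theorem isArith_inf (D : Dat F) {G H : Subgroup (SG D)} (hG : IsArith D G) (hH : H.relIndex (Gam D 1) ≠ 0) :
    IsArith D (G ⊓ H) :=
  ⟨inf_le_left.trans hG.1, Subgroup.relIndex_inf_ne_zero hG.2 hH⟩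

theorem arith_le {D : Dat F} {G : Subgroup (SG D)} (h : IsArith D G) : G ≤ Gam D 1 := h.1.trans (Gam_le D 3)

theorem isInv1_mono (D : Dat F) {G H : Subgroup (SG D)} (h : H ≤ G) {ω : ℂ × ℂ → ℂ × ℂ} (hω : IsInv1 D G ω) :
    IsInv1 D H ω := fun g hg z hz => hω g (h hg) z hz

/-- The wedge product of invariant forms is an invariant form of degree 2. -/
theorem inv_wedge (D : Dat F) {G : Subgroup (SG D)} (hG : G ≤ Gam D 1) {ω ω' : ℂ × ℂ → ℂ × ℂ}
    (h : IsInv1 D G ω) (h' : IsInv1 D G ω') {g : SG D} (hg : g ∈ G) {z : ℂ × ℂ} (hz : z ∈ Ball D) :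
    wedge (ω (_root_.CMT.act D g z)) (ω' (_root_.CMT.act D g z)) = num D g z 2 ^ 3 * wedge (ω z) (ω' z) := by
  have hi := isIso_of_le D hG g hg
  have hj := _root_.CMT.B.num_two_ne_zero D hi hz
  have h1 := wedge_pull D hi hz (ω (_root_.CMT.act D g z)) (ω' (_root_.CMT.act D g z))
  rw [h g hg z hz, h' g hg z hz, pull2_eq] at h1
  rw [h1]
  field_simp

/-- The density of four invariant forms. -/
theorem dens_of_inv (D : Dat F) {G : Subgroup (SG D)} (hG : G ≤ Gam D 1) {ω : Fin 4 → ℂ × ℂ → ℂ × ℂ}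
    (h : ∀ i, IsInv1 D G (ω i)) :
    IsDens D G (fun z => wedge (ω 0 z) (ω 1 z) * conj (wedge (ω 2 z) (ω 3 z))) := by
  intro g hg z hz
  show wedge (ω 0 (_root_.CMT.act D g z)) (ω 1 (_root_.CMT.act D g z)) *
    conj (wedge (ω 2 (_root_.CMT.act D g z)) (ω 3 (_root_.CMT.act D g z))) = _
  rw [inv_wedge D hG (h 0) (h 1) hg hz, inv_wedge D hG (h 2) (h 3) hg hz, map_mul, map_pow]
  have h1 : ((‖num D g z 2‖ ^ 6 : ℝ) : ℂ) = num D g z 2 ^ 3 * conj (num D g z 2) ^ 3 := by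
    rw [← mul_pow, Complex.mul_conj, Complex.normSq_eq_norm_sq]
    push_cast
    ring
  rw [h1]
  ring

/-- The integral does not depend on the weight. -/
theorem int_indep (D : Dat F) {G : Subgroup (SG D)} (hG : G ≤ Gam D 1) {f : ℂ × ℂ → ℂ}
    (hf : ContinuousOn f (Ball D)) (hd : IsDens D G f) {χ χ' : ℂ × ℂ → ℝ} (h : IsWeight D G χ) (h' : IsWeight D G χ') :
    ∫ z, ((χ z : ℝ) : ℂ) * f z = ∫ z, ((χ' z : ℝ) : ℂ) * f z :=
  int_eq (μ := volume) (ac_ball D G (isIso_of_le D hG)) (wt_of_isWeight D G h) (wt_of_isWeight D G h') hf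
    (inv_of_isDens D hG hd)

/-- Complex conjugation of the integral. -/
theorem int_conj (χ : ℂ × ℂ → ℝ) (f : ℂ × ℂ → ℂ) :
    ∫ z, ((χ z : ℝ) : ℂ) * conj (f z) = conj (∫ z, ((χ z : ℝ) : ℂ) * f z) := by
  rw [← integral_conj]
  refine integral_congr_ae (Filter.Eventually.of_forall fun z => ?_)
  simp only [map_mul, Complex.conj_ofReal]

/-- A weighted continuous function on the ball is integrable. -/
theorem integrable_wt (D : Dat F) {G : Subgroup (SG D)} {χ : ℂ × ℂ → ℝ} (h : IsWeight D G χ) {f : ℂ × ℂ → ℂ}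
    (hf : ContinuousOn f (Ball D)) : Integrable (fun z => ((χ z : ℝ) : ℂ) * f z) :=
  integrable_mul (isOpen_Ball D) h.1 h.2.2.1 h.2.2.2.1 hf

theorem int_congr (D : Dat F) {G : Subgroup (SG D)} {χ : ℂ × ℂ → ℝ} (h : IsWeight D G χ) {f f' : ℂ × ℂ → ℂ}
    (hf : ∀ z ∈ Ball D, f z = f' z) : ∫ z, ((χ z : ℝ) : ℂ) * f z = ∫ z, ((χ z : ℝ) : ℂ) * f' z := by
  refine integral_congr_ae (Filter.Eventually.of_forall fun z => ?_)
  by_cases hz : z ∈ Ball D
  · simp only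
    rw [hf z hz]
  · simp only
    rw [(wt_of_isWeight D G h).eq_zero hz]
    simp

/-- The kernel is linear in `ψ`. -/
theorem ker_sum (hS : S_SumKer) [NumberField.IsTotallyReal F] (D : Dat F) {a1 a2 : F} (h1 : a1 ≠ 0) (h2 : a2 ≠ 0)
    {E : (F →+* ℝ) → Matrix (Fin 2) (Fin 2) ℝ} (hE : ∀ t, t ≠ D.t0 → (E t).PosDef) {k : ℕ}
    {ψ : Fin k → (Fin 3 → F) × (Fin 3 → F) → ℂ} (hψ : ∀ j, IsSB2 (ψ j)) {z : ℂ × ℂ} (hz : z ∈ Ball D) :
    ker D a1 a2 E (fun p => ∑ j, ψ j p) z = ∑ j, ker D a1 a2 E (ψ j) z := by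
  unfold _root_.CMT.ker
  have h3 : ∀ j, Summable fun p : (Fin 3 → F) × (Fin 3 → F) => ψ j p * tm2 D a1 a2 E p.1 p.2 z *
      wedge (du (D.t0 D.bet) (rx D.t0 p.1) z) (du (D.t0 D.bet) (rx D.t0 p.2) z) := fun j =>
    (hS F D a1 a2 h1 h2 E hE (ψ j) (hψ j) z hz).of_norm
  rw [← Summable.tsum_finsetSum fun j _ => h3 j]
  refine tsum_congr fun p => ?_
  rw [Finset.sum_mul, Finset.sum_mul]

theorem continuousOn_wedge {X : Set (ℂ × ℂ)} {ω ω' : ℂ × ℂ → ℂ × ℂ} (h : ContinuousOn ω X) (h' : ContinuousOn ω' X) :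
    ContinuousOn (fun z => wedge (ω z) (ω' z)) X := by
  unfold wedge
  exact ((continuous_fst.comp_continuousOn h).mul (continuous_snd.comp_continuousOn h')).sub
    ((continuous_snd.comp_continuousOn h).mul (continuous_fst.comp_continuousOn h'))

end Pool.Agent.CMT.G
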