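import Pool.Agent.Lib.CMT.G.Asm

/-!
# Theorem CM, part G: the choice of `a_i`, `φ_i` and the non vanishing
-/

set_option autoImplicit false

open MeasureTheory ComplexConjugate

noncomputable section

namespace Pool.Agent.CMT.G

open _root_.CMT

/-- The hypotheses of the assembly. -/
structure Hyps : Prop where
  sgn : S_Sgn
  choice : S_Choice
  maj : S_Maj
  split : S_Split
  star : S_Star
  subSB : S_SubSB
  fin : S_Fin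
  sumKer : S_SumKer
  contOm : S_ContOm
  contKer : S_ContKer
  contE : S_ContE
  nv : S_NV
  wt : S_Wt
  inv2 : S_Inv2
  inv1 : S_Inv1

variable {F : Type} [Field F] [NumberField F] [NumberField.IsTotallyReal F]

/-- First step: the signs, the functions `φ₁, φ₂`, an arithmetic group, `X, Y` and a non zero integral of the kernel. -/
theorem step1 (hyp : Hyps) (hF : 2 ≤ Module.finrank ℚ F) (D : Dat F) (e : Fin 4 → (F →+* ℝ) → ℝ)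
    (he : ∀ i t, e i t = 1 ∨ e i t = -1) (he0 : ∀ i, e i D.t0 = 1)
    (hsum : ∀ t, e 0 t + e 1 t = e 2 t + e 3 t) :
    ∃ (a1 a2 X Y : F) (φ1 φ2 : (Fin 3 → F) → ℂ) (G : Subgroup (SG D)),
      (∀ t, 0 < e 0 t * t a1) ∧ (∀ t, 0 < e 1 t * t a2) ∧ (∀ t, 0 < e 2 t * t (a3 a1 a2 X Y)) ∧
      (∀ t, 0 < e 3 t * t (a4 a1 a2 X Y)) ∧ IsSB φ1 ∧ IsSB φ2 ∧ IsArith D G ∧
      IsDens D G (fun z => ker D a1 a2 (EXY a1 a2 X Y) (fun p => φ1 p.1 * φ2 p.2) z *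
        conj (ker D a1 a2 (E12 a1 a2) (fun p => φ1 p.1 * φ2 p.2) z)) ∧
      ∃ χ, IsWeight D G χ ∧ ∫ z, ((χ z : ℝ) : ℂ) * (ker D a1 a2 (EXY a1 a2 X Y) (fun p => φ1 p.1 * φ2 p.2) z *
        conj (ker D a1 a2 (E12 a1 a2) (fun p => φ1 p.1 * φ2 p.2) z)) ≠ 0 := by
  obtain ⟨a1, h1⟩ := hyp.sgn F (e 0) (he 0)
  obtain ⟨a2, h2⟩ := hyp.sgn F (e 1) (he 1)
  have p1 : 0 < D.t0 a1 := by
    have h := h1 D.t0
    rwa [he0 0, one_mul] at h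
  have p2 : 0 < D.t0 a2 := by
    have h := h2 D.t0
    rwa [he0 1, one_mul] at h
  have n1 : a1 ≠ 0 := fun h => by simp [h] at p1
  have n2 : a2 ≠ 0 := fun h => by simp [h] at p2
  obtain ⟨φ1, φ2, s1, s2, hne⟩ := hyp.nv F D a1 a2 n1 n2
  have sψ : IsSB2 (fun p : (Fin 3 → F) × (Fin 3 → F) => φ1 p.1 * φ2 p.2) := isSB2_prod s1 s2
  obtain ⟨n, hn, hinv⟩ := hyp.inv2 F D a1 a2 p1 p2 _ sψ
  have ha : IsArith D (Gam D 3 ⊓ Gam D n) :=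
    ⟨inf_le_left, Subgroup.relIndex_inf_ne_zero (idx F D 3 (by norm_num)) (idx F D n hn)⟩
  obtain ⟨χ, hχ⟩ := hyp.wt F hF D _ ha
  have m12 : ∀ t : F →+* ℝ, IsMaj (t a1) (t a2) (E12 a1 a2 t) := (hyp.maj F a1 a2 1 1 n1 n2).1
  have c12 : ContinuousOn (ker D a1 a2 (E12 a1 a2) (fun p => φ1 p.1 * φ2 p.2)) (Ball D) :=
    hyp.contKer F D a1 a2 n1 n2 _ (fun t _ => (m12 t).1) _ sψ
  -- positivity at the base point
  have hpos : ∫ z, ((χ z : ℝ) : ℂ) * (ker D a1 a2 (E12 a1 a2) (fun p => φ1 p.1 * φ2 p.2) z *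
      conj (ker D a1 a2 (E12 a1 a2) (fun p => φ1 p.1 * φ2 p.2) z)) ≠ 0 := by
    refine posInt F D _ (arith_le ha) χ hχ _ c12
      (isDens_mono D inf_le_right (hinv _ _ (fun t _ => m12 t) (fun t _ => m12 t))) ?_
    rw [hyp.split F D a1 a2 p1 p2 φ1 φ2 s1 s2 0 (zero_mem_Ball D)]
    exact hne
  obtain ⟨ε, hε, hcont⟩ := hyp.contE F D a1 a2 n1 n2 _ sψ χ hχ.1 hχ.2.2.1 hχ.2.2.2.1 _ c12 _ (norm_pos_iff.2 hpos)
  obtain ⟨X, Y, h3, h4, hclose⟩ := hyp.choice F e he hsum a1 a2 h1 h2 ε hε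
  have n3 : a3 a1 a2 X Y ≠ 0 := by
    intro h
    have h5 := h3 D.t0
    rw [h, map_zero, mul_zero] at h5
    exact lt_irrefl _ h5
  have mXY : ∀ t : F →+* ℝ, IsMaj (t a1) (t a2) (EXY a1 a2 X Y t) := (hyp.maj F a1 a2 X Y n1 n2).2 n3
  refine ⟨a1, a2, X, Y, φ1, φ2, Gam D 3 ⊓ Gam D n, h1, h2, h3, h4, s1, s2, ha,
    isDens_mono D inf_le_right (hinv _ _ (fun t _ => mXY t) (fun t _ => m12 t)), χ, hχ, ?_⟩
  have h5 := hcont (EXY a1 a2 X Y) (fun t _ => (mXY t).1) (fun t _ i j => hclose t i j)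
  intro h6
  rw [h6, zero_sub, norm_neg] at h5
  exact lt_irrefl _ h5

/-- Second step: the kernel at `EXY` is a finite sum of products. -/
theorem step2 (hyp : Hyps) (D : Dat F) {a1 a2 X Y : F} (p1 : 0 < D.t0 a1) (p2 : 0 < D.t0 a2)
    (p3 : 0 < D.t0 (a3 a1 a2 X Y)) {ψ : (Fin 3 → F) × (Fin 3 → F) → ℂ} (hψ : IsSB2 ψ) :
    ∃ (k : ℕ) (φ φ' : Fin k → (Fin 3 → F) → ℂ), (∀ j, IsSB (φ j)) ∧ (∀ j, IsSB (φ' j)) ∧
      ∀ z ∈ Ball D, ker D a1 a2 (EXY a1 a2 X Y) ψ z = ((D.t0 (a3 a1 a2 X Y) : ℝ) : ℂ) *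
        ∑ j, wedge (om D (a3 a1 a2 X Y) (φ j) z) (om D (a4 a1 a2 X Y) (φ' j) z) := by
  have n1 : a1 ≠ 0 := fun h => by simp [h] at p1
  have n2 : a2 ≠ 0 := fun h => by simp [h] at p2
  have n3 : a3 a1 a2 X Y ≠ 0 := fun h => by simp [h] at p3
  have p4 : 0 < D.t0 (a4 a1 a2 X Y) := by
    unfold a4
    rw [map_mul, map_mul]
    exact mul_pos (mul_pos p1 p2) p3
  have n4 : a4 a1 a2 X Y ≠ 0 := fun h => by simp [h] at p4
  have h1 := hyp.subSB F a1 a2 X Y n1 n2 n3 ψ hψ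
  obtain ⟨k, φ, φ', hφ, hφ', hsum⟩ := hyp.fin F _ h1
  refine ⟨k, φ, φ', hφ, hφ', fun z hz => ?_⟩
  rw [hyp.star F D a1 a2 X Y p1 p2 n3 ψ z]
  congr 1
  have h2 : (fun p => ψ (subP a1 a2 X Y p)) = fun p => ∑ j, (fun j (p : (Fin 3 → F) × (Fin 3 → F)) =>
      φ j p.1 * φ' j p.2) j p := funext fun p => hsum p
  have m34 : ∀ t : F →+* ℝ, IsMaj (t (a3 a1 a2 X Y)) (t (a4 a1 a2 X Y)) (E12 (a3 a1 a2 X Y) (a4 a1 a2 X Y) t) :=
    (hyp.maj F _ _ 1 1 n3 n4).1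
  rw [h2, ker_sum hyp.sumKer D n3 n4 (fun t _ => (m34 t).1) (fun j => isSB2_prod (hφ j) (hφ' j)) hz]
  exact Finset.sum_congr rfl fun j _ => hyp.split F D _ _ p3 p4 _ _ (hφ j) (hφ' j) z hz

end Pool.Agent.CMT.G
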