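import Pool.Agent.Lib.CMT.G.Idx

/-!
# Theorem CM, part G: the weight of a subgroup of finite index from a weight of the group
-/

set_option autoImplicit false

open MeasureTheory

noncomputable section

namespace Pool.Agent.CMT.G

variable {E : Type*} [NormedAddCommGroup E] [NormedSpace ℝ E] {Γ : Type*} [Group Γ]

variable {X : Set E} {A : Γ → E → E} {J : Γ → E → ℝ} {χ χ' : E → ℝ} {f : E → ℂ}

/-- A subgroup of finite index has a weight if the group has one. -/
theorem Wt.down (hA : Ac X A J) (h : Wt X A χ) (H : Subgroup Γ) [H.FiniteIndex] :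
    ∃ χ' : E → ℝ, Wt X (resA H A) χ' := by
  classical
  have hfin : Finite (Γ ⧸ H) := H.finite_quotient_of_finiteIndex
  have : Fintype (Γ ⧸ H) := Fintype.ofFinite _
  set K : Set E := ⋃ q : Γ ⧸ H, A (q.out)⁻¹ '' tsupport χ with hK
  have hKc : IsCompact K := isCompact_iUnion fun q =>
    h.cpt.isCompact.image_of_continuousOn ((hA.contOn _).mono h.sub)
  have hKX : K ⊆ X := by
    rintro z hz
    obtain ⟨q, w, hw, rfl⟩ := Set.mem_iUnion.1 hz
    exact hA.mem _ _ (h.sub hw)
  set χ' : E → ℝ := fun z => if z ∈ X then ∑ q : Γ ⧸ H, χ (A q.out z) else 0 with hχ'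
  have hin : ∀ z ∈ X, χ' z = ∑ q : Γ ⧸ H, χ (A q.out z) := fun z hz => by
    rw [hχ']
    simp only
    rw [if_pos hz]
  have hout : ∀ z, z ∉ X → χ' z = 0 := fun z hz => by
    rw [hχ']
    simp only
    rw [if_neg hz]
  have hsupp : Function.support χ' ⊆ K := by
    intro z hz
    rw [Function.mem_support] at hz
    have hzX : z ∈ X := by
      by_contra h1
      exact hz (hout z h1)
    rw [hin z hzX] at hz
    obtain ⟨q, -, hq⟩ := Finset.exists_ne_zero_of_sum_ne_zero hz
    exact Set.mem_iUnion.2 ⟨q, A q.out z, subset_tsupport _ hq, hA.inv_act _ hzX⟩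
  have hts : tsupport χ' ⊆ K := closure_minimal hsupp hKc.isClosed
  refine ⟨χ', ?_, ?_, ?_, hts.trans hKX, ?_⟩
  · rw [continuous_iff_continuousAt]
    intro z
    by_cases hz : z ∈ X
    · have h1 : ContinuousAt (fun z => ∑ q : Γ ⧸ H, χ (A q.out z)) z :=
        tendsto_finset_sum _ fun q _ =>
          (h.cont.continuousAt.comp ((hA.contOn q.out).continuousAt (hA.op.mem_nhds hz)))
      refine h1.congr ?_
      filter_upwards [hA.op.mem_nhds hz] with w hw
      exact (hin w hw).symm
    · have h2 : z ∈ Kᶜ := fun hh => hz (hKX hh)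
      have h3 : χ' =ᶠ[nhds z] fun _ => 0 := by
        filter_upwards [hKc.isClosed.isOpen_compl.mem_nhds h2] with w hw
        by_contra h5
        exact hw (hsupp h5)
      exact h3.continuousAt
  · intro z
    by_cases hz : z ∈ X
    · rw [hin z hz]
      exact Finset.sum_nonneg fun q _ => h.nn _
    · rw [hout z hz]
  · exact HasCompactSupport.of_support_subset_isCompact hKc hsupp
  · intro z hz
    have h1 : HasSum (fun p : (Γ ⧸ H) × H => χ (A (p.1.out * (p.2 : Γ)) z)) 1 :=
      (Equiv.ofBijective _ (coset_bij H)).hasSum_iff (f := fun g : Γ => χ (A g z)) |>.2 (h.sum z hz)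
    have h2 : HasSum (fun p : H × (Γ ⧸ H) => χ (A (p.2.out * (p.1 : Γ)) z)) 1 :=
      (Equiv.prodComm H (Γ ⧸ H)).hasSum_iff (f := fun p : (Γ ⧸ H) × H => χ (A (p.1.out * (p.2 : Γ)) z)) |>.2 h1
    refine h2.prod_fiberwise fun k => ?_
    have h3 : χ' (resA H A k z) = ∑ q : Γ ⧸ H, χ (A (q.out * (k : Γ)) z) := by
      have h4 : resA H A k z = A (k : Γ) z := rfl
      rw [h4, hin _ (hA.mem _ _ hz)]
      refine Finset.sum_congr rfl fun q _ => ?_
      rw [hA.mul _ _ _ hz]
    rw [h3]
    exact hasSum_fintype _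

end Pool.Agent.CMT.G
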