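import Pool.Agent.Lib.CMT.G.Wt

/-!
# Theorem CM, part G: weights of a subgroup of finite index, positivity, continuity in a parameter
-/

set_option autoImplicit false

open MeasureTheory

noncomputable section

namespace Pool.Agent.CMT.G

variable {E : Type*} [NormedAddCommGroup E] [NormedSpace ℝ E] {Γ : Type*} [Group Γ]

variable {X : Set E} {A : Γ → E → E} {J : Γ → E → ℝ} {χ χ' : E → ℝ} {f : E → ℂ}

/-- The action of a subgroup. -/
def resA (H : Subgroup Γ) (A : Γ → E → E) : H → E → E := fun h => A h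

/-- The Jacobians of a subgroup. -/
def resJ (H : Subgroup Γ) (J : Γ → E → ℝ) : H → E → ℝ := fun h => J h

theorem Ac.res (hA : Ac X A J) (H : Subgroup Γ) : Ac X (resA H A) (resJ H J) where
  op := hA.op
  mem g z hz := hA.mem g z hz
  one z hz := hA.one z hz
  mul g h z hz := hA.mul g h z hz
  der g z hz := hA.der g z hz

theorem Inv.res (hi : Inv X A J f) (H : Subgroup Γ) : Inv X (resA H A) (resJ H J) f := fun g z hz => hi g z hz

/-- The cosets. -/
theorem coset_bij (H : Subgroup Γ) :
    Function.Bijective (fun p : (Γ ⧸ H) × H => p.1.out * (p.2 : Γ)) := by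
  constructor
  · rintro ⟨q, k⟩ ⟨q', k'⟩ h
    have h1 : (QuotientGroup.mk (q.out * (k : Γ)) : Γ ⧸ H) = q := by
      rw [QuotientGroup.mk_mul_of_mem _ k.2, QuotientGroup.out_eq']
    have h2 : (QuotientGroup.mk (q'.out * (k' : Γ)) : Γ ⧸ H) = q' := by
      rw [QuotientGroup.mk_mul_of_mem _ k'.2, QuotientGroup.out_eq']
    have h3 : q = q' := by
      rw [← h1, ← h2]
      exact congrArg _ h
    subst h3
    have h4 : (k : Γ) = k' := mul_left_cancel h
    rw [Subtype.ext h4]
  · intro g
    have h1 : (QuotientGroup.mk g : Γ ⧸ H).out⁻¹ * g ∈ H := by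
      rw [← QuotientGroup.eq, QuotientGroup.out_eq']
    exact ⟨(QuotientGroup.mk g, ⟨_, h1⟩), by simp⟩

/-- The weight of the group from the weight of a subgroup of finite index. -/
theorem Wt.up (hA : Ac X A J) (H : Subgroup Γ) [H.FiniteIndex] (h : Wt X (resA H A) χ) :
    Wt X A (fun z => χ z / H.index) where
  cont := h.cont.div_const _
  nn z := div_nonneg (h.nn z) (Nat.cast_nonneg _)
  cpt := by
    have := h.cpt.comp_left (g := fun x : ℝ => x / H.index) (by simp)
    exact this
  sub := by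
    refine (closure_mono ?_).trans h.sub
    intro z hz
    rw [Function.mem_support] at hz ⊢
    intro h1
    rw [h1] at hz
    simp at hz
  sum z hz := by
    classical
    have hfin : Finite (Γ ⧸ H) := H.finite_quotient_of_finiteIndex
    have : Fintype (Γ ⧸ H) := Fintype.ofFinite _
    have hidx : (Fintype.card (Γ ⧸ H) : ℝ) = H.index := by
      rw [Subgroup.index_eq_card, Nat.card_eq_fintype_card]
    have hne : (H.index : ℝ) ≠ 0 := by exact_mod_cast Subgroup.FiniteIndex.index_ne_zero
    -- the sum over one coset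
    have h1 : ∀ q : Γ ⧸ H, HasSum (fun k : H => χ (A ((q.out * (k : Γ))⁻¹) z)) 1 := by
      intro q
      have h2 := h.sum (A (q.out)⁻¹ z) (hA.mem _ _ hz)
      have h3 : HasSum (fun k : H => χ (resA H A k⁻¹ (A (q.out)⁻¹ z))) 1 := (Equiv.inv H).hasSum_iff
        (f := fun k : H => χ (resA H A k (A (q.out)⁻¹ z))) |>.2 h2
      have h4 : (fun k : H => χ (A ((q.out * (k : Γ))⁻¹) z)) =
          fun k : H => χ (resA H A k⁻¹ (A (q.out)⁻¹ z)) := by
        funext k
        show _ = χ (A ((k⁻¹ : H) : Γ) (A (q.out)⁻¹ z))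
        rw [← hA.mul _ _ _ hz, mul_inv_rev]
        rfl
      rw [h4]
      exact h3
    have h4 : HasSum (fun p : (Γ ⧸ H) × H => χ (A ((p.1.out * (p.2 : Γ))⁻¹) z)) (H.index : ℝ) := by
      have h5 : Summable (fun p : (Γ ⧸ H) × H => χ (A ((p.1.out * (p.2 : Γ))⁻¹) z)) := by
        rw [summable_prod_of_nonneg (fun p => h.nn _)]
        exact ⟨fun q => (h1 q).summable, (hasSum_fintype _).summable⟩
      have h6 := h5.hasSum.prod_fiberwise h1
      have h7 := h6.unique (hasSum_fintype _)
      rw [Finset.sum_const, Finset.card_univ, nsmul_eq_mul, mul_one, hidx] at h7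
      rw [← h7]
      exact h5.hasSum
    have h5 : HasSum (fun g : Γ => χ (A g⁻¹ z)) (H.index : ℝ) :=
      (Equiv.ofBijective _ (coset_bij H)).hasSum_iff (f := fun g : Γ => χ (A g⁻¹ z)) |>.1 h4
    have h6 : HasSum (fun g : Γ => χ (A g z)) (H.index : ℝ) :=
      (Equiv.inv Γ).hasSum_iff (f := fun g : Γ => χ (A g z)) |>.1 h5
    have h7 := h6.div_const (H.index : ℝ)
    rw [div_self hne] at h7
    exact h7

/-- A weight is positive on an orbit. -/
theorem Wt.exists_pos (h : Wt X A χ) {z : E} (hz : z ∈ X) : ∃ g : Γ, 0 < χ (A g z) := by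
  by_contra h1
  push Not at h1
  have h2 : (fun g : Γ => χ (A g z)) = fun _ => 0 := funext fun g => le_antisymm (h1 g) (h.nn _)
  have h3 := h.sum z hz
  rw [h2] at h3
  exact one_ne_zero (h3.unique hasSum_zero)

variable [FiniteDimensional ℝ E] [MeasurableSpace E] [BorelSpace E] {μ : Measure E} [μ.IsAddHaarMeasure]

/-- **Positivity.** -/
theorem int_pos (hA : Ac X A J) (h : Wt X A χ) (hf : ContinuousOn f X)
    (hi : Inv X A J f) (hnn : ∀ z ∈ X, ∃ r : ℝ, 0 ≤ r ∧ f z = r) (hne : ∃ z ∈ X, f z ≠ 0) :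
    ∫ z, (χ z : ℂ) * f z ∂μ ≠ 0 := by
  -- a point with positive weight
  obtain ⟨z0, hz0, hf0⟩ := hne
  obtain ⟨g, hg⟩ := h.exists_pos hz0
  have hX0 : A g z0 ∈ X := hA.mem g z0 hz0
  have hfg : f (A g z0) ≠ 0 := by
    intro h1
    have h2 := hi g z0 hz0
    rw [h1, mul_zero] at h2
    exact hf0 h2.symm
  set F : E → ℝ := fun z => χ z * (f z).re with hF
  have hFc : Continuous F := by
    rw [continuous_iff_continuousAt]
    intro z
    by_cases hz : z ∈ X
    · exact h.cont.continuousAt.mul (Complex.continuous_re.continuousAt.comp (hf.continuousAt (hA.op.mem_nhds hz)))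
    · have h2 : z ∈ (tsupport χ)ᶜ := fun hh => hz (h.sub hh)
      have h3 : F =ᶠ[nhds z] fun _ => 0 := by
        filter_upwards [(isClosed_tsupport χ).isOpen_compl.mem_nhds h2] with w hw
        have h4 : χ w = 0 := by
          by_contra h5
          exact hw (subset_tsupport _ h5)
        rw [hF]
        simp only
        rw [h4, zero_mul]
      exact h3.continuousAt
  have hFnn : 0 ≤ F := by
    intro z
    by_cases hz : z ∈ X
    · obtain ⟨r, hr, hfr⟩ := hnn z hz
      rw [hF]
      simp only [Pi.zero_apply]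
      rw [hfr, Complex.ofReal_re]
      exact mul_nonneg (h.nn z) hr
    · rw [hF]
      simp only [Pi.zero_apply]
      rw [h.eq_zero hz, zero_mul]
  have hFs : HasCompactSupport F := HasCompactSupport.mul_right h.cpt
  have hF0 : F (A g z0) ≠ 0 := by
    obtain ⟨r, hr, hfr⟩ := hnn _ hX0
    rw [hF]
    simp only
    rw [hfr, Complex.ofReal_re]
    refine mul_ne_zero hg.ne' ?_
    intro h1
    rw [hfr, h1] at hfg
    exact hfg Complex.ofReal_zero
  have hpos : 0 < ∫ z, F z ∂μ := by
    refine hFc.integral_pos_of_hasCompactSupport_nonneg_nonzero hFs hFnn hF0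
  have he : ∫ z, (χ z : ℂ) * f z ∂μ = ((∫ z, F z ∂μ : ℝ) : ℂ) := by
    refine Eq.trans (integral_congr_ae (Filter.Eventually.of_forall fun z => ?_)) (integral_complex_ofReal (μ := μ) (f := F))
    simp only
    rw [hF]
    by_cases hz : z ∈ X
    · obtain ⟨r, hr, hfr⟩ := hnn z hz
      simp only
      rw [hfr, Complex.ofReal_re]
      push_cast
      rfl
    · simp only
      rw [h.eq_zero hz]
      simp
  rw [he]
  exact_mod_cast hpos.ne'

/-- **Continuity in a parameter.** `k z r → k z r0` for `z ∈ X`, locally bounded. -/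
theorem int_tendsto (hA : Ac X A J) (h : Wt X A χ) (hf : ContinuousOn f X) {ι : Type*} {l : Filter ι}
    [l.IsCountablyGenerated] {k : ι → E → ℂ} {k0 : E → ℂ} (hk : ∀ i, ContinuousOn (k i) X)
    (hlim : ∀ z ∈ X, Filter.Tendsto (fun i => k i z) l (nhds (k0 z)))
    (hbd : ∃ C : ℝ, ∀ᶠ i in l, ∀ z ∈ tsupport χ, ‖k i z‖ ≤ C) :
    Filter.Tendsto (fun i => ∫ z, (χ z : ℂ) * (k i z * f z) ∂μ) l (nhds (∫ z, (χ z : ℂ) * (k0 z * f z) ∂μ)) := by
  obtain ⟨C, hC⟩ := hbd
  have h1 : Integrable (fun z => (χ z : ℂ) * f z) μ := integrable_mul hA.op h.cont h.cpt h.sub hf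
  refine tendsto_integral_filter_of_dominated_convergence (fun z => C * ‖(χ z : ℂ) * f z‖) ?_ ?_
    (h1.norm.const_mul C) ?_
  · filter_upwards with i
    exact (integrable_mul hA.op h.cont h.cpt h.sub ((hk i).mul hf)).aestronglyMeasurable
  · filter_upwards [hC] with i hi
    filter_upwards with z
    by_cases hz : z ∈ tsupport χ
    · calc ‖(χ z : ℂ) * (k i z * f z)‖ = ‖k i z‖ * ‖(χ z : ℂ) * f z‖ := by rw [norm_mul, norm_mul, norm_mul]; ring
        _ ≤ C * ‖(χ z : ℂ) * f z‖ := mul_le_mul_of_nonneg_right (hi z hz) (norm_nonneg _)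
    · have h2 : χ z = 0 := by
        by_contra h5
        exact hz (subset_tsupport _ h5)
      rw [h2]
      simp
  · filter_upwards with z
    by_cases hz : z ∈ X
    · exact ((hlim z hz).mul_const _).const_mul _
    · simp only [h.eq_zero hz, Complex.ofReal_zero, zero_mul]
      exact tendsto_const_nhds

end Pool.Agent.CMT.G
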