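import Pool.Agent.Lib.CMT.G.Down

/-!
# Theorem CM, part G: the normalised integral of a density invariant under a subgroup of finite index
-/

set_option autoImplicit false

open MeasureTheory

noncomputable section

namespace Pool.Agent.CMT.G

variable {E : Type*} [NormedAddCommGroup E] [NormedSpace ℝ E] {Γ : Type*} [Group Γ]

variable {X : Set E} {A : Γ → E → E} {J : Γ → E → ℝ} {χ χ' : E → ℝ} {f f' : E → ℂ}

/-- Densities: continuous on `X`, invariant under a subgroup of finite index. -/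
def Den (X : Set E) (A : Γ → E → E) (J : Γ → E → ℝ) (f : E → ℂ) : Prop :=
  ContinuousOn f X ∧ ∃ H : Subgroup Γ, H.FiniteIndex ∧ Inv X (resA H A) (resJ H J) f

/-- Invariance passes to a smaller subgroup. -/
theorem Inv.mono {H K : Subgroup Γ} (hKH : K ≤ H) (h : Inv X (resA H A) (resJ H J) f) :
    Inv X (resA K A) (resJ K J) f := fun g z hz => h ⟨g, hKH g.2⟩ z hz

theorem Inv.add (h : Inv X A J f) (h' : Inv X A J f') : Inv X A J (fun z => f z + f' z) := by
  intro g z hz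
  rw [mul_add, h g z hz, h' g z hz]

theorem Inv.smul (c : ℂ) (h : Inv X A J f) : Inv X A J (fun z => c * f z) := by
  intro g z hz
  rw [mul_left_comm, h g z hz]

theorem Inv.congr (h : Inv X A J f) (hA : Ac X A J) (he : ∀ z ∈ X, f' z = f z) : Inv X A J f' := by
  intro g z hz
  rw [he z hz, he _ (hA.mem g z hz), h g z hz]

/-- The action of the intersection seen inside the first subgroup is the same weight problem. -/
theorem Wt.trans (hA : Ac X A J) {H K : Subgroup Γ} (hKH : K ≤ H) [K.FiniteIndex] (h : Wt X (resA K A) χ) :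
    Wt X (resA H A) (fun z => χ z / (K.subgroupOf H).index) := by
  have hfi : (K.subgroupOf H).FiniteIndex := by
    refine ⟨?_⟩
    intro h1
    have h2 : K.relIndex H = 0 := h1
    have h3 := Subgroup.relIndex_mul_index hKH
    rw [h2, zero_mul] at h3
    exact Subgroup.FiniteIndex.index_ne_zero h3.symm
  refine Wt.up (hA.res H) (K.subgroupOf H) ?_
  refine ⟨h.cont, h.nn, h.cpt, h.sub, ?_⟩
  intro z hz
  have h1 := h.sum z hz
  exact ((Subgroup.subgroupOfEquivOfLe hKH).toEquiv.hasSum_iff (f := fun g : K => χ (resA K A g z))).2 h1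

variable [FiniteDimensional ℝ E] [MeasurableSpace E] [BorelSpace E] {μ : Measure E} [μ.IsAddHaarMeasure]

/-- Two subgroups of finite index and weights give the same normalised integral. -/
theorem norm_eq [Countable Γ] (hA : Ac X A J) (h0 : ∃ χ, Wt X A χ) {H H' : Subgroup Γ} [H.FiniteIndex] [H'.FiniteIndex]
    (hf : ContinuousOn f X) (hi : Inv X (resA H A) (resJ H J) f) (hi' : Inv X (resA H' A) (resJ H' J) f)
    (hχ : Wt X (resA H A) χ) (hχ' : Wt X (resA H' A) χ') :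
    (∫ z, (χ z : ℂ) * f z ∂μ) / (H.index : ℂ) = (∫ z, (χ' z : ℂ) * f z ∂μ) / (H'.index : ℂ) := by
  obtain ⟨χ0, hχ0⟩ := h0
  obtain ⟨χ1, hχ1⟩ := Wt.down hA hχ0 (H ⊓ H')
  have key : ∀ {H : Subgroup Γ} {χ : E → ℝ} (_ : H.FiniteIndex) (K : Subgroup Γ) (_ : K.FiniteIndex) (_ : K ≤ H),
      Inv X (resA H A) (resJ H J) f → Wt X (resA H A) χ → Wt X (resA K A) χ1 →
      (∫ z, (χ z : ℂ) * f z ∂μ) / (H.index : ℂ) = (∫ z, (χ1 z : ℂ) * f z ∂μ) / (K.index : ℂ) := by
    intro H χ hH K hK hKH hi hχ hχ1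
    have h1 := Wt.trans hA hKH hχ1
    rw [int_eq (hA.res H) hχ h1 hf hi]
    have h2 : (K.subgroupOf H).index * H.index = K.index := Subgroup.relIndex_mul_index hKH
    have h3 : (H.index : ℂ) ≠ 0 := by exact_mod_cast hH.index_ne_zero
    have h4 : (K.index : ℂ) ≠ 0 := by exact_mod_cast hK.index_ne_zero
    have h5 : (((K.subgroupOf H).index : ℕ) : ℂ) ≠ 0 := by
      intro h6
      have h7 : ((K.subgroupOf H).index : ℂ) * (H.index : ℂ) = K.index := by exact_mod_cast h2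
      rw [h6, zero_mul] at h7
      exact h4 h7.symm
    have h6 : ∀ z, (((χ1 z / (K.subgroupOf H).index : ℝ)) : ℂ) * f z =
        (((K.subgroupOf H).index : ℕ) : ℂ)⁻¹ * ((χ1 z : ℂ) * f z) := by
      intro z
      push_cast
      field_simp
    simp_rw [h6]
    rw [integral_const_mul, ← h2]
    push_cast
    field_simp
  rw [key inferInstance (H ⊓ H') inferInstance inf_le_left hi hχ hχ1,
    key inferInstance (H ⊓ H') inferInstance inf_le_right hi' hχ' hχ1]

open Classical in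
/-- The normalised integral of a density. -/
def nint (μ : Measure E) (X : Set E) (A : Γ → E → E) (J : Γ → E → ℝ) (f : E → ℂ) : ℂ :=
  if h : ∃ c : ℂ, ∃ H : Subgroup Γ, H.FiniteIndex ∧ Inv X (resA H A) (resJ H J) f ∧
    ∃ χ, Wt X (resA H A) χ ∧ c = (∫ z, (χ z : ℂ) * f z ∂μ) / (H.index : ℂ) then h.choose else 0

theorem nint_eq [Countable Γ] (hA : Ac X A J) (h0 : ∃ χ, Wt X A χ) {H : Subgroup Γ} [H.FiniteIndex]
    (hf : ContinuousOn f X) (hi : Inv X (resA H A) (resJ H J) f) (hχ : Wt X (resA H A) χ) :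
    nint μ X A J f = (∫ z, (χ z : ℂ) * f z ∂μ) / (H.index : ℂ) := by
  have h : ∃ c : ℂ, ∃ H : Subgroup Γ, H.FiniteIndex ∧ Inv X (resA H A) (resJ H J) f ∧
    ∃ χ, Wt X (resA H A) χ ∧ c = (∫ z, (χ z : ℂ) * f z ∂μ) / (H.index : ℂ) := ⟨_, H, inferInstance, hi, χ, hχ, rfl⟩
  rw [nint, dif_pos h]
  obtain ⟨H', hH', hi', χ', hχ', he⟩ := h.choose_spec
  rw [he]
  exact norm_eq hA h0 hf hi' hi hχ' hχ

theorem Den.add (h : Den X A J f) (h' : Den X A J f') : Den X A J (fun z => f z + f' z) := by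
  obtain ⟨hc, H, hH, hi⟩ := h
  obtain ⟨hc', H', hH', hi'⟩ := h'
  exact ⟨hc.add hc', H ⊓ H', inferInstance, (hi.mono inf_le_left).add (hi'.mono inf_le_right)⟩

theorem Den.congr (h : Den X A J f) (hA : Ac X A J) (he : ∀ z ∈ X, f' z = f z) : Den X A J f' := by
  obtain ⟨hc, H, hH, hi⟩ := h
  exact ⟨hc.congr he, H, hH, hi.congr (hA.res H) he⟩

theorem nint_congr [Countable Γ] (hA : Ac X A J) (h0 : ∃ χ, Wt X A χ) (h : Den X A J f) (he : ∀ z ∈ X, f' z = f z) :
    nint μ X A J f' = nint μ X A J f := by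
  obtain ⟨hc, H, hH, hi⟩ := h
  obtain ⟨χ0, hχ0⟩ := h0
  obtain ⟨χ, hχ⟩ := Wt.down hA hχ0 H
  rw [nint_eq hA ⟨χ0, hχ0⟩ hc hi hχ, nint_eq hA ⟨χ0, hχ0⟩ (hc.congr he) (hi.congr (hA.res H) he) hχ]
  congr 1
  refine integral_congr_ae (Filter.Eventually.of_forall fun z => ?_)
  by_cases hz : z ∈ X
  · simp only
    rw [he z hz]
  · simp only
    rw [hχ.eq_zero hz]
    simp

theorem nint_add [Countable Γ] (hA : Ac X A J) (h0 : ∃ χ, Wt X A χ) (h : Den X A J f) (h' : Den X A J f') :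
    nint μ X A J (fun z => f z + f' z) = nint μ X A J f + nint μ X A J f' := by
  obtain ⟨hc, H, hH, hi⟩ := h
  obtain ⟨hc', H', hH', hi'⟩ := h'
  obtain ⟨χ0, hχ0⟩ := h0
  obtain ⟨χ, hχ⟩ := Wt.down hA hχ0 (H ⊓ H')
  have h1 := hi.mono (inf_le_left : H ⊓ H' ≤ H)
  have h2 := hi'.mono (inf_le_right : H ⊓ H' ≤ H')
  have hc2 : ContinuousOn (fun z => f z + f' z) X := hc.add hc'
  rw [nint_eq hA ⟨χ0, hχ0⟩ hc h1 hχ, nint_eq hA ⟨χ0, hχ0⟩ hc' h2 hχ,
    nint_eq hA ⟨χ0, hχ0⟩ hc2 (h1.add h2) hχ, ← add_div]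
  congr 1
  rw [← integral_add (integrable_mul hA.op hχ.cont hχ.cpt hχ.sub hc) (integrable_mul hA.op hχ.cont hχ.cpt hχ.sub hc')]
  refine integral_congr_ae (Filter.Eventually.of_forall fun z => ?_)
  simp only
  ring

theorem Den.zero (X : Set E) (A : Γ → E → E) (J : Γ → E → ℝ) : Den X A J (fun _ => 0) :=
  ⟨continuousOn_const, ⊤, inferInstance, fun g z _ => by rw [mul_zero]⟩

theorem nint_zero [Countable Γ] (hA : Ac X A J) (h0 : ∃ χ, Wt X A χ) : nint μ X A J (fun _ => 0) = 0 := by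
  obtain ⟨hc, H, hH, hi⟩ := Den.zero X A J
  obtain ⟨χ0, hχ0⟩ := h0
  obtain ⟨χ, hχ⟩ := Wt.down hA hχ0 H
  rw [nint_eq hA ⟨χ0, hχ0⟩ hc hi hχ]
  simp

theorem Den.sum {ι : Type*} (s : Finset ι) {F : ι → E → ℂ} (h : ∀ i ∈ s, Den X A J (F i)) :
    Den X A J (fun z => ∑ i ∈ s, F i z) := by
  classical
  induction s using Finset.induction_on with
  | empty => simpa using Den.zero X A J
  | insert a s ha ih =>
    have h1 := (h a (Finset.mem_insert_self _ _)).add (ih fun i hi => h i (Finset.mem_insert_of_mem hi))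
    simp_rw [Finset.sum_insert ha]
    exact h1

theorem nint_sum [Countable Γ] (hA : Ac X A J) (h0 : ∃ χ, Wt X A χ) {ι : Type*} (s : Finset ι) {F : ι → E → ℂ}
    (h : ∀ i ∈ s, Den X A J (F i)) :
    nint μ X A J (fun z => ∑ i ∈ s, F i z) = ∑ i ∈ s, nint μ X A J (F i) := by
  classical
  induction s using Finset.induction_on with
  | empty => simpa using nint_zero hA h0
  | insert a s ha ih =>
    have h1 := h a (Finset.mem_insert_self _ _)
    have h2 : ∀ i ∈ s, Den X A J (F i) := fun i hi => h i (Finset.mem_insert_of_mem hi)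
    simp_rw [Finset.sum_insert ha]
    rw [nint_add hA h0 h1 (Den.sum s h2), ih h2]

end Pool.Agent.CMT.G
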