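import Pool.Agent.Lib.CMT.G.Core

/-!
# Theorem CM, part G: `T1` from the interfaces
-/

set_option autoImplicit false

open MeasureTheory ComplexConjugate

noncomputable section

namespace Pool.Agent.CMT.G

open _root_.CMT

variable {F : Type} [Field F] [NumberField F] [NumberField.IsTotallyReal F]

/-- Third step: one product has a non zero pairing, on an arithmetic group for which all four forms are invariant. -/
theorem step3 (hyp : Hyps) (hF : 2 ≤ Module.finrank ℚ F) (D : Dat F) (e : Fin 4 → (F →+* ℝ) → ℝ)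
    (he : ∀ i t, e i t = 1 ∨ e i t = -1) (he0 : ∀ i, e i D.t0 = 1)
    (hsum : ∀ t, e 0 t + e 1 t = e 2 t + e 3 t) :
    ∃ (a1 a2 b1 b2 : F) (φ1 φ2 φ3 φ4 : (Fin 3 → F) → ℂ) (G : Subgroup (SG D)) (χ : ℂ × ℂ → ℝ),
      (∀ t, 0 < e 0 t * t a1) ∧ (∀ t, 0 < e 1 t * t a2) ∧ (∀ t, 0 < e 2 t * t b1) ∧
      (∀ t, 0 < e 3 t * t b2) ∧ IsSB φ1 ∧ IsSB φ2 ∧ IsSB φ3 ∧ IsSB φ4 ∧ IsArith D G ∧
      IsInv1 D G (om D a1 φ1) ∧ IsInv1 D G (om D a2 φ2) ∧ IsInv1 D G (om D b1 φ3) ∧ IsInv1 D G (om D b2 φ4) ∧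
      IsWeight D G χ ∧
      ∫ z, ((χ z : ℝ) : ℂ) * (wedge (om D b1 φ3 z) (om D b2 φ4 z) *
        conj (wedge (om D a1 φ1 z) (om D a2 φ2 z))) ≠ 0 := by
  obtain ⟨a1, a2, X, Y, φ1, φ2, G0, h1, h2, h3, h4, s1, s2, hG0, hdens, χ0, hχ0, hne⟩ :=
    step1 hyp hF D e he he0 hsum
  have p1 : 0 < D.t0 a1 := by
    have h := h1 D.t0
    rwa [he0 0, one_mul] at h
  have p2 : 0 < D.t0 a2 := by
    have h := h2 D.t0
    rwa [he0 1, one_mul] at h
  have p3 : 0 < D.t0 (a3 a1 a2 X Y) := by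
    have h := h3 D.t0
    rwa [he0 2, one_mul] at h
  have p4 : 0 < D.t0 (a4 a1 a2 X Y) := by
    have h := h4 D.t0
    rwa [he0 3, one_mul] at h
  have n1 : a1 ≠ 0 := fun h => by simp [h] at p1
  have n2 : a2 ≠ 0 := fun h => by simp [h] at p2
  have n3 : a3 a1 a2 X Y ≠ 0 := fun h => by simp [h] at p3
  have n4 : a4 a1 a2 X Y ≠ 0 := fun h => by simp [h] at p4
  have sψ : IsSB2 (fun p : (Fin 3 → F) × (Fin 3 → F) => φ1 p.1 * φ2 p.2) := isSB2_prod s1 s2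
  obtain ⟨k, φ, φ', hφ, hφ', hker⟩ := step2 hyp D p1 p2 p3 sψ
  obtain ⟨G1, hG1, i1⟩ := hyp.inv1 F D a1 p1 φ1 s1
  obtain ⟨G2, hG2, i2⟩ := hyp.inv1 F D a2 p2 φ2 s2
  choose H hH iH using fun j => hyp.inv1 F D (a3 a1 a2 X Y) p3 (φ j) (hφ j)
  choose H' hH' iH' using fun j => hyp.inv1 F D (a4 a1 a2 X Y) p4 (φ' j) (hφ' j)
  -- the group
  have hfin : ((G1 ⊓ G2) ⊓ ⨅ j, (H j ⊓ H' j)).relIndex (Gam D 1) ≠ 0 :=
    Subgroup.relIndex_inf_ne_zero (Subgroup.relIndex_inf_ne_zero hG1.2 hG2.2)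
      (Subgroup.relIndex_iInf_ne_zero fun j => Subgroup.relIndex_inf_ne_zero (hH j).2 (hH' j).2)
  set G : Subgroup (SG D) := G0 ⊓ ((G1 ⊓ G2) ⊓ ⨅ j, (H j ⊓ H' j)) with hGdef
  have hG : IsArith D G := isArith_inf D hG0 hfin
  have l1 : G ≤ G1 := inf_le_right.trans (inf_le_left.trans inf_le_left)
  have l2 : G ≤ G2 := inf_le_right.trans (inf_le_left.trans inf_le_right)
  have l3 : ∀ j, G ≤ H j := fun j => inf_le_right.trans (inf_le_right.trans ((iInf_le _ j).trans inf_le_left))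
  have l4 : ∀ j, G ≤ H' j := fun j => inf_le_right.trans (inf_le_right.trans ((iInf_le _ j).trans inf_le_right))
  obtain ⟨χ, hχ⟩ := hyp.wt F hF D G hG
  -- the integral of the kernel
  have m12 : ∀ t : F →+* ℝ, IsMaj (t a1) (t a2) (E12 a1 a2 t) := (hyp.maj F a1 a2 1 1 n1 n2).1
  have mXY : ∀ t : F →+* ℝ, IsMaj (t a1) (t a2) (EXY a1 a2 X Y t) := (hyp.maj F a1 a2 X Y n1 n2).2 n3
  have c12 : ContinuousOn (ker D a1 a2 (E12 a1 a2) (fun p => φ1 p.1 * φ2 p.2)) (Ball D) :=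
    hyp.contKer F D a1 a2 n1 n2 _ (fun t _ => (m12 t).1) _ sψ
  have cXY : ContinuousOn (ker D a1 a2 (EXY a1 a2 X Y) (fun p => φ1 p.1 * φ2 p.2)) (Ball D) :=
    hyp.contKer F D a1 a2 n1 n2 _ (fun t _ => (mXY t).1) _ sψ
  have hrel : G.relIndex G0 ≠ 0 := mt (Subgroup.relIndex_eq_zero_of_le_right (arith_le hG0)) hG.2
  have h5 := unf F D G0 G inf_le_left (arith_le hG0) hrel χ0 χ hχ0 hχ _
    (cXY.mul (Complex.continuous_conj.comp_continuousOn c12)) hdens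
  have h6 : ∫ z, ((χ z : ℝ) : ℂ) * (ker D a1 a2 (EXY a1 a2 X Y) (fun p => φ1 p.1 * φ2 p.2) z *
        conj (ker D a1 a2 (E12 a1 a2) (fun p => φ1 p.1 * φ2 p.2) z)) ≠ 0 := by
    have h7 : ((G.relIndex G0 : ℕ) : ℂ) ≠ 0 := by exact_mod_cast hrel
    exact fun h => (mul_ne_zero h7 hne) (h5.symm.trans h)
  -- the finite sum
  have cw : ∀ j, ContinuousOn (fun z => wedge (om D (a3 a1 a2 X Y) (φ j) z) (om D (a4 a1 a2 X Y) (φ' j) z) *
      conj (wedge (om D a1 φ1 z) (om D a2 φ2 z))) (Ball D) := fun j =>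
    (continuousOn_wedge (hyp.contOm F D _ n3 _ (hφ j)) (hyp.contOm F D _ n4 _ (hφ' j))).mul
      (Complex.continuous_conj.comp_continuousOn
        (continuousOn_wedge (hyp.contOm F D _ n1 _ s1) (hyp.contOm F D _ n2 _ s2)))
  have h7 : ∫ z, ((χ z : ℝ) : ℂ) * (ker D a1 a2 (EXY a1 a2 X Y) (fun p => φ1 p.1 * φ2 p.2) z *
        conj (ker D a1 a2 (E12 a1 a2) (fun p => φ1 p.1 * φ2 p.2) z)) =
      ((D.t0 (a3 a1 a2 X Y) : ℝ) : ℂ) * ∑ j, ∫ z, ((χ z : ℝ) : ℂ) *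
        (wedge (om D (a3 a1 a2 X Y) (φ j) z) (om D (a4 a1 a2 X Y) (φ' j) z) *
          conj (wedge (om D a1 φ1 z) (om D a2 φ2 z))) := by
    rw [← integral_finset_sum _ fun j _ => integrable_wt D hχ (cw j), ← integral_const_mul]
    have h8 : ∀ z ∈ Ball D, ker D a1 a2 (EXY a1 a2 X Y) (fun p => φ1 p.1 * φ2 p.2) z *
        conj (ker D a1 a2 (E12 a1 a2) (fun p => φ1 p.1 * φ2 p.2) z) =
        ((D.t0 (a3 a1 a2 X Y) : ℝ) : ℂ) * ∑ j, wedge (om D (a3 a1 a2 X Y) (φ j) z) (om D (a4 a1 a2 X Y) (φ' j) z) *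
          conj (wedge (om D a1 φ1 z) (om D a2 φ2 z)) := by
      intro z hz
      rw [hker z hz, hyp.split F D a1 a2 p1 p2 φ1 φ2 s1 s2 z hz, mul_assoc, Finset.sum_mul]
    rw [int_congr D hχ h8]
    refine integral_congr_ae (Filter.Eventually.of_forall fun z => ?_)
    simp only
    rw [Finset.mul_sum, Finset.mul_sum, Finset.mul_sum]
    refine Finset.sum_congr rfl fun j _ => ?_
    ring
  rw [h7] at h6
  obtain ⟨j, -, hj⟩ := Finset.exists_ne_zero_of_sum_ne_zero (right_ne_zero_of_mul h6)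
  exact ⟨a1, a2, a3 a1 a2 X Y, a4 a1 a2 X Y, φ1, φ2, φ j, φ' j, G, χ, h1, h2, h3, h4, s1, s2, hφ j, hφ' j, hG,
    isInv1_mono D l1 i1, isInv1_mono D l2 i2, isInv1_mono D (l3 j) (iH j), isInv1_mono D (l4 j) (iH' j), hχ, hj⟩

/-- **`T1` from the interfaces.** -/
theorem T1_of (hyp : Hyps) (hact : S_Act) (hfree : S_Free) (hpd : S_Pd) (hcpt : S_Cpt) (hprim : S_Prim) : T1 := by
  intro F _ _ _ hF D e he he0 hsum
  obtain ⟨a1, a2, b1, b2, φ1, φ2, φ3, φ4, G, χ, h1, h2, h3, h4, s1, s2, s3, s4, hG, i1, i2, i3, i4, hχ, hne⟩ :=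
    step3 hyp hF D e he he0 hsum
  have hpos : ∀ {i : Fin 4} {a : F}, (∀ t, 0 < e i t * t a) → a ≠ 0 := by
    intro i a h h0
    have h' := h D.t0
    rw [h0, map_zero, mul_zero] at h'
    exact lt_irrefl _ h'
  have hle := arith_le hG
  have hsb : ∀ i : Fin 4, IsSB ((![φ1, φ2, φ3, φ4] : Fin 4 → (Fin 3 → F) → ℂ) i) := by
    intro i
    fin_cases i
    exacts [s1, s2, s3, s4]
  have hsg : ∀ (i : Fin 4) t, 0 < e i t * t ((![a1, a2, b1, b2] : Fin 4 → F) i) := by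
    intro i
    fin_cases i
    exacts [h1, h2, h3, h4]
  have hiv : ∀ i : Fin 4, IsInv1 D G (om D ((![a1, a2, b1, b2] : Fin 4 → F) i)
      ((![φ1, φ2, φ3, φ4] : Fin 4 → (Fin 3 → F) → ℂ) i)) := by
    intro i
    fin_cases i
    exacts [i1, i2, i3, i4]
  refine ⟨![a1, a2, b1, b2], ![φ1, φ2, φ3, φ4], G, hsg, hsb, hG, ?_, ?_, ?_, hcpt F hF D G hle hG.2, hiv, ?_,
    ⟨χ, hχ⟩, ?_⟩
  · intro g hg z hz
    exact ((hact F D).2.1 g (hle hg).1 z hz).1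
  · intro g hg z hz hgz
    exact hfree F D g (hG.1 hg) z hz hgz
  · intro C hC hCB
    exact (hpd F D C hC hCB).subset fun g hg => ⟨hle hg.1, hg.2⟩
  · intro i
    exact hprim F D _ (hpos (hsg i)) _ (hsb i)
  · intro χ' hχ'
    have hd := dens_of_inv D hle hiv
    have n1 := hpos h1
    have n2 := hpos h2
    have n3 := hpos h3
    have n4 := hpos h4
    have hc : ContinuousOn (fun z => wedge (om D a1 φ1 z) (om D a2 φ2 z) *
        conj (wedge (om D b1 φ3 z) (om D b2 φ4 z))) (Ball D) :=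
      (continuousOn_wedge (hyp.contOm F D _ n1 _ s1) (hyp.contOm F D _ n2 _ s2)).mul
        (Complex.continuous_conj.comp_continuousOn
          (continuousOn_wedge (hyp.contOm F D _ n3 _ s3) (hyp.contOm F D _ n4 _ s4)))
    have h5 := int_indep D hle hc hd hχ' hχ
    have h6 : ∫ z, ((χ z : ℝ) : ℂ) * (wedge (om D a1 φ1 z) (om D a2 φ2 z) *
        conj (wedge (om D b1 φ3 z) (om D b2 φ4 z))) =
        conj (∫ z, ((χ z : ℝ) : ℂ) * (wedge (om D b1 φ3 z) (om D b2 φ4 z) *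
          conj (wedge (om D a1 φ1 z) (om D a2 φ2 z)))) := by
      rw [← int_conj]
      refine integral_congr_ae (Filter.Eventually.of_forall fun z => ?_)
      simp only [map_mul, Complex.conj_conj]
      ring
    have h7 : ∫ z, ((χ' z : ℝ) : ℂ) * (wedge (om D a1 φ1 z) (om D a2 φ2 z) *
        conj (wedge (om D b1 φ3 z) (om D b2 φ4 z))) ≠ 0 := by
      rw [h5, h6]
      intro h8
      exact hne ((map_eq_zero _).1 h8)
    exact h7

end Pool.Agent.CMT.G
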