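import Mathlib

/-!
# Theorem CM, part G: integrals over a quotient by weights (abstract)

`X` open in a finite dimensional real space, a countable group `Γ` acting on `X` by differentiable maps `A g`, `J g z` the absolute value of the
real Jacobian. A weight is a continuous `χ ≥ 0` with compact support in `X` and `∑ χ (g z) = 1` on `X`. The integral
`∫ χ f` of an invariant density `f` does not depend on the weight.
-/

set_option autoImplicit false

open MeasureTheory

noncomputable section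

namespace Pool.Agent.CMT.G

variable {E : Type*} [NormedAddCommGroup E] [NormedSpace ℝ E] {Γ : Type*} [Group Γ]

/-- A group acting on `X` by differentiable maps, `J g z` the absolute value of the real Jacobian. -/
structure Ac (X : Set E) (A : Γ → E → E) (J : Γ → E → ℝ) : Prop where
  op : IsOpen X
  mem : ∀ g z, z ∈ X → A g z ∈ X
  one : ∀ z ∈ X, A 1 z = z
  mul : ∀ g h z, z ∈ X → A (g * h) z = A g (A h z)
  der : ∀ g z, z ∈ X → ∃ D : E →L[ℝ] E, HasFDerivAt (A g) D z ∧ |D.det| = J g z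

/-- A weight. -/
structure Wt (X : Set E) (A : Γ → E → E) (χ : E → ℝ) : Prop where
  cont : Continuous χ
  nn : ∀ z, 0 ≤ χ z
  cpt : HasCompactSupport χ
  sub : tsupport χ ⊆ X
  sum : ∀ z ∈ X, HasSum (fun g : Γ => χ (A g z)) 1

/-- Invariant densities. -/
def Inv (X : Set E) (A : Γ → E → E) (J : Γ → E → ℝ) (f : E → ℂ) : Prop :=
  ∀ g z, z ∈ X → (J g z : ℂ) * f (A g z) = f z

variable {X : Set E} {A : Γ → E → E} {J : Γ → E → ℝ} {χ χ' : E → ℝ} {f : E → ℂ}


theorem Ac.inv_act (hA : Ac X A J) (g : Γ) {z : E} (hz : z ∈ X) : A g⁻¹ (A g z) = z := by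
  rw [← hA.mul _ _ _ hz, inv_mul_cancel, hA.one z hz]

theorem Ac.act_inv (hA : Ac X A J) (g : Γ) {z : E} (hz : z ∈ X) : A g (A g⁻¹ z) = z := by
  rw [← hA.mul _ _ _ hz, mul_inv_cancel, hA.one z hz]

theorem Ac.contOn (hA : Ac X A J) (g : Γ) : ContinuousOn (A g) X := by
  intro z hz
  obtain ⟨D, hD, -⟩ := hA.der g z hz
  exact hD.continuousAt.continuousWithinAt

theorem Ac.image (hA : Ac X A J) (g : Γ) : A g '' X = X := by
  ext w
  constructor
  · rintro ⟨z, hz, rfl⟩
    exact hA.mem g z hz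
  · intro hw
    exact ⟨A g⁻¹ w, hA.mem _ _ hw, hA.act_inv g hw⟩

theorem Ac.injOn (hA : Ac X A J) (g : Γ) : Set.InjOn (A g) X := by
  intro z hz w hw h
  rw [← hA.inv_act g hz, h, hA.inv_act g hw]

theorem Wt.eq_zero (h : Wt X A χ) {z : E} (hz : z ∉ X) : χ z = 0 := by
  by_contra h1
  exact hz (h.sub (subset_tsupport _ h1))

variable [FiniteDimensional ℝ E] [MeasurableSpace E] [BorelSpace E] {μ : Measure E} [μ.IsAddHaarMeasure]

/-- Change of variables. -/
theorem Ac.integral_comp (hA : Ac X A J) (g : Γ) (F : E → ℂ) :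
    ∫ w in X, F w ∂μ = ∫ z in X, (J g z : ℂ) * F (A g z) ∂μ := by
  have h : ∀ z, ∃ D : E →L[ℝ] E, z ∈ X → (HasFDerivAt (A g) D z ∧ |D.det| = J g z) := by
    intro z
    by_cases hz : z ∈ X
    · obtain ⟨D, hD⟩ := hA.der g z hz
      exact ⟨D, fun _ => hD⟩
    · exact ⟨0, fun h => absurd h hz⟩
  choose D hD using h
  have h1 := integral_image_eq_integral_abs_det_fderiv_smul μ hA.op.measurableSet
    (fun z hz => (hD z hz).1.hasFDerivWithinAt) (hA.injOn g) F
  rw [hA.image g] at h1
  rw [h1]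
  refine setIntegral_congr_fun hA.op.measurableSet fun z hz => ?_
  rw [(hD z hz).2, Complex.real_smul]

theorem Wt.integral_eq (h : Wt X A χ) (F : E → ℂ) : ∫ z, (χ z : ℂ) * F z ∂μ = ∫ z in X, (χ z : ℂ) * F z ∂μ := by
  rw [setIntegral_eq_integral_of_forall_compl_eq_zero]
  intro z hz
  rw [h.eq_zero hz]
  simp

/-- Integrability of weight times continuous function. -/
theorem integrable_mul (hX : IsOpen X) (hc : Continuous χ) (hcs : HasCompactSupport χ) (hs : tsupport χ ⊆ X)
    (hf : ContinuousOn f X) : Integrable (fun z => (χ z : ℂ) * f z) μ := by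
  have h1 : Continuous (fun z => (χ z : ℂ) * f z) := by
    rw [continuous_iff_continuousAt]
    intro z
    by_cases hz : z ∈ X
    · exact (Complex.continuous_ofReal.comp hc).continuousAt.mul (hf.continuousAt (hX.mem_nhds hz))
    · have h2 : z ∈ (tsupport χ)ᶜ := fun h => hz (hs h)
      have h3 : (fun z => (χ z : ℂ) * f z) =ᶠ[nhds z] fun _ => 0 := by
        filter_upwards [(isClosed_tsupport χ).isOpen_compl.mem_nhds h2] with w hw
        have h4 : χ w = 0 := by
          by_contra h5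
          exact hw (subset_tsupport _ h5)
        rw [h4]
        simp
      exact h3.continuousAt
  refine h1.integrable_of_hasCompactSupport ?_
  refine HasCompactSupport.mul_right ?_
  exact hcs.comp_left (g := fun x : ℝ => (x : ℂ)) Complex.ofReal_zero

/-- **Independence of the weight.** -/
theorem int_eq [Countable Γ] (hA : Ac X A J) (h1 : Wt X A χ) (h2 : Wt X A χ') (hf : ContinuousOn f X)
    (hi : Inv X A J f) : ∫ z, (χ z : ℂ) * f z ∂μ = ∫ z, (χ' z : ℂ) * f z ∂μ := by
  -- the terms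
  have key : ∀ {χ χ' : E → ℝ}, Wt X A χ → Wt X A χ' →
      HasSum (fun g : Γ => ∫ z in X, (χ z : ℂ) * (χ' (A g z) : ℂ) * f z ∂μ) (∫ z in X, (χ z : ℂ) * f z ∂μ) := by
    intro χ χ' h1 h2
    have hcA : ∀ g : Γ, ContinuousOn (fun z => (χ z : ℂ) * (χ' (A g z) : ℂ) * f z) X := by
      intro g
      refine ContinuousOn.mul (ContinuousOn.mul ?_ ?_) hf
      · exact (Complex.continuous_ofReal.comp h1.cont).continuousOn
      · exact Complex.continuous_ofReal.comp_continuousOn (h2.cont.comp_continuousOn (hA.contOn g))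
    have hnorm : ∀ (g : Γ) (z : E), ‖(χ z : ℂ) * (χ' (A g z) : ℂ) * f z‖ = ‖(χ z : ℂ) * f z‖ * χ' (A g z) := by
      intro g z
      rw [norm_mul, norm_mul, norm_mul, Complex.norm_real (χ' (A g z)), Real.norm_of_nonneg (h2.nn _)]
      ring
    refine hasSum_integral_of_dominated_convergence (fun g z => ‖(χ z : ℂ) * f z‖ * χ' (A g z)) ?_ ?_ ?_ ?_ ?_
    · intro g
      exact (hcA g).aestronglyMeasurable hA.op.measurableSet
    · intro g
      filter_upwards with z
      exact (hnorm g z).le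
    · filter_upwards [ae_restrict_mem hA.op.measurableSet] with z hz
      exact ((h2.sum z hz).summable).mul_left _
    · have h3 : Integrable (fun z => ‖(χ z : ℂ) * f z‖) (μ.restrict X) :=
        ((integrable_mul hA.op h1.cont h1.cpt h1.sub hf).norm).integrableOn
      refine h3.congr ?_
      filter_upwards [ae_restrict_mem hA.op.measurableSet] with z hz
      rw [tsum_mul_left, (h2.sum z hz).tsum_eq, mul_one]
    · filter_upwards [ae_restrict_mem hA.op.measurableSet] with z hz
      have h3 : HasSum (fun g : Γ => ((χ' (A g z) : ℝ) : ℂ)) ((1 : ℝ) : ℂ) := Complex.hasSum_ofReal.2 (h2.sum z hz)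
      have h4 := (h3.mul_left ((χ z : ℂ))).mul_right (f z)
      rw [Complex.ofReal_one, mul_one] at h4
      exact h4
  rw [h1.integral_eq, h2.integral_eq]
  have e1 := key h1 h2
  have e2 := key h2 h1
  have e3 : ∀ g : Γ, ∫ z in X, (χ z : ℂ) * (χ' (A g z) : ℂ) * f z ∂μ =
      ∫ z in X, (χ' z : ℂ) * (χ (A g⁻¹ z) : ℂ) * f z ∂μ := by
    intro g
    rw [hA.integral_comp g (fun z => (χ' z : ℂ) * (χ (A g⁻¹ z) : ℂ) * f z)]
    refine setIntegral_congr_fun hA.op.measurableSet fun z hz => ?_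
    show _ = (J g z : ℂ) * ((χ' (A g z) : ℂ) * (χ (A g⁻¹ (A g z)) : ℂ) * f (A g z))
    rw [hA.inv_act g hz, ← hi g z hz]
    ring
  have e4 : HasSum (fun g : Γ => ∫ z in X, (χ' z : ℂ) * (χ (A g⁻¹ z) : ℂ) * f z ∂μ) (∫ z in X, (χ' z : ℂ) * f z ∂μ) :=
    (Equiv.inv Γ).hasSum_iff (f := fun g : Γ => ∫ z in X, (χ' z : ℂ) * (χ (A g z) : ℂ) * f z ∂μ) |>.2 e2
  rw [funext e3] at e1
  exact e1.unique e4

end Pool.Agent.CMT.G
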